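import Pool.Agent.H25.Hart.Order

/-! The nondegenerate case for one diagonalizable automorphism of large order. -/

open MvPolynomial

set_option linter.unusedSectionVars false
set_option linter.unusedSimpArgs false

namespace Pool.Agent.H25.Hart

open H89.Hart H15.Hart

/-- Weights of a one-parameter group which preserves the variety, from a diagonal automorphism
whose powers up to the bound are not scalar. -/
theorem weights_of_order {ι : Type*} [Fintype ι] [DecidableEq ι] (a : ι → ℂ) (ha : ∀ i, a i ≠ 0)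
    {d : ℕ} (hd : 1 ≤ d)
    (hord : ∀ N, 0 < N → N ≤ (2 * d) ^ (Fintype.card ι - 1) → ∃ i j, a i ^ N ≠ a j ^ N) :
    ∃ w : ι → ℤ, (∃ i j, w i ≠ w j) ∧ ∀ u ∈ rel a (2 * d), ∑ i, u i * w i = 0 := by
  classical
  have : Nonempty ι := by
    obtain ⟨i, _⟩ := hord 1 one_pos (Nat.one_le_pow _ _ (by omega))
    exact ⟨i⟩
  obtain ⟨m, hm, hmle, hmv⟩ := exists_exponent (rel a (2 * d)) (2 * d) (by omega)
    (fun u hu => hu.1) (fun u hu => hu.2.1)
  obtain ⟨i, j, hij⟩ := hord m hm hmle
  have hne : i ≠ j := by rintro rfl; exact hij rfl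
  have hnot : (Pi.single i 1 - Pi.single j 1 : ι → ℚ) ∉
      Submodule.span ℚ ((fun (u : ι → ℤ) (i : ι) => (u i : ℚ)) '' rel a (2 * d)) := by
    intro hmem
    have h0 : (fun k => (((Pi.single i 1 - Pi.single j 1 : ι → ℤ) k : ℤ) : ℚ)) =
        (Pi.single i 1 - Pi.single j 1 : ι → ℚ) := by
      funext k
      simp only [Pi.sub_apply, Pi.single_apply]
      split_ifs <;> simp
    have h1 := prod_closure ha (hmv (Pi.single i 1 - Pi.single j 1) (by rw [h0]; exact hmem))
    have h2 : ∏ k, a k ^ ((m : ℤ) • (Pi.single i 1 - Pi.single j 1 : ι → ℤ)) k =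
        a i ^ m * (a j ^ m)⁻¹ := by
      rw [← Finset.prod_subset (Finset.subset_univ ({i, j} : Finset ι))]
      · rw [Finset.prod_pair hne]
        simp only [Pi.smul_apply, Pi.sub_apply, Pi.single_eq_same, Pi.single_eq_of_ne hne,
          Pi.single_eq_of_ne hne.symm, smul_eq_mul]
        rw [sub_zero, mul_one, zero_sub, mul_neg, mul_one, zpow_neg, zpow_natCast, zpow_natCast]
      · intro k _ hk
        simp only [Finset.mem_insert, Finset.mem_singleton, not_or] at hk
        simp [Pi.single_apply, hk.1, hk.2]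
    rw [h2] at h1
    exact hij ((mul_inv_eq_one₀ (pow_ne_zero m (ha j))).1 h1)
  obtain ⟨w, hwij, hw⟩ := exists_weights' a (2 * d) hnot
  exact ⟨w, ⟨i, j, hwij⟩, hw⟩

/-- A cone cut out by forms of degree at most `d` and stable under the diagonal matrix `a` is
stable under every one-parameter group whose weights respect the short relations of `a`. -/
theorem stab_of_rel {ι : Type*} [Fintype ι] [DecidableEq ι] (I : Ideal (MvPolynomial ι ℂ))
    (a : ι → ℂ) (ha : ∀ i, a i ≠ 0) {d : ℕ}
    (hcut : ∀ x, (∀ f ∈ I, ∀ e ≤ d, f.IsHomogeneous e → eval x f = 0) → x ∈ cone I)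
    (hstab : ∀ x ∈ cone I, (fun i => a i * x i) ∈ cone I) (w : ι → ℤ)
    (hw : ∀ u ∈ rel a (2 * d), ∑ i, u i * w i = 0) {t : ℂ} (ht : t ≠ 0) {z : ι → ℂ}
    (hz : z ∈ cone I) : (fun i => t ^ w i * z i) ∈ cone I := by
  classical
  apply hcut
  intro f hf e he hfe
  have hk : ∀ k : ℕ, (fun i => a i ^ k * z i) ∈ cone I := by
    intro k
    induction k with
    | zero => simpa using hz
    | succ k ih =>
      have := hstab _ ih
      have e : (fun i => a i * (a i ^ k * z i)) = fun i => a i ^ (k + 1) * z i := by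
        funext i; ring
      rwa [e] at this
  refine eval_act_zero' f z a (fun k => hk k f hf) w (fun μ hμ μ' hμ' hprod => ?_) ht
  have hdeg : ∀ μ ∈ f.support, ∑ k, μ k = e := by
    intro μ hμ
    have := hfe (mem_support_iff.1 hμ)
    rw [← this, Finsupp.weight_apply, Finsupp.sum_fintype _ _ (by simp)]
    simp
  have h2 := hdeg μ hμ
  have h3 := hdeg μ' hμ'
  have h4 : ∑ k, (μ k : ℤ) = e := by exact_mod_cast h2
  have h5 : ∑ k, (μ' k : ℤ) = e := by exact_mod_cast h3
  have hrel : (fun k => (μ k : ℤ) - μ' k) ∈ rel a (2 * d) := by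
    refine ⟨?_, ?_, ?_⟩
    · rw [Finset.sum_sub_distrib, h4, h5, sub_self]
    · calc ∑ k, |(μ k : ℤ) - μ' k| ≤ ∑ k, ((μ k : ℤ) + μ' k) := by
            refine Finset.sum_le_sum fun k _ => ?_
            rw [abs_le]
            constructor <;> omega
        _ = e + e := by rw [Finset.sum_add_distrib, h4, h5]
        _ ≤ ((2 * d : ℕ) : ℤ) := by push_cast; omega
    · have : ∏ k, a k ^ ((μ k : ℤ) - μ' k) = (∏ k, a k ^ μ k) / ∏ k, a k ^ μ' k := by
        rw [← Finset.prod_div_distrib]
        refine Finset.prod_congr rfl fun k _ => ?_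
        rw [zpow_sub₀ (ha k), zpow_natCast, zpow_natCast]
      rw [this, hprod, div_self]
      exact Finset.prod_ne_zero_iff.2 fun k _ => pow_ne_zero _ (ha k)
  have h6 := hw _ hrel
  simp only [sub_mul, Finset.sum_sub_distrib] at h6
  exact sub_eq_zero.1 h6

/-- the diagonal nondegenerate case -/
theorem core_order_diag (ι : Type) [Fintype ι] [DecidableEq ι] (I : Ideal (MvPolynomial ι ℂ))
    (r d : ℕ) (hI : Smooth I r) (a : ι → ℂ) (ha : ∀ i, a i ≠ 0)
    (hstab : ∀ x ∈ cone I, (fun i => a i * x i) ∈ cone I)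
    (hnd : ∀ s, (∀ x ∈ cone I, s ⬝ᵥ x = 0) → s = 0)
    (hcut : ∀ x, (∀ f ∈ I, ∀ e ≤ d, f.IsHomogeneous e → eval x f = 0) → x ∈ cone I)
    (hord : ∀ N, 0 < N → N ≤ (2 * d) ^ (Fintype.card ι - 1) → ∃ i j, a i ^ N ≠ a j ^ N)
    (hcard : 23 * r < Fintype.card ι) :
    r ≤ 1 ∧ (r = 1 → ∀ G e, I = Ideal.span {G} → G.IsHomogeneous e → e ≤ 2) := by
  classical
  rcases Nat.eq_zero_or_pos d with rfl | hd
  · -- no equations: the cone is everything
    have hall : ∀ x, x ∈ cone I := by
      intro x
      apply hcut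
      intro f hf e he hfe
      obtain rfl : e = 0 := by omega
      by_cases hf0 : f = 0
      · rw [hf0, map_zero]
      · exfalso
        have hC := totalDegree_eq_zero_iff_eq_C.1 (hfe.totalDegree hf0)
        apply hI.prime.ne_top
        rw [Ideal.eq_top_iff_one]
        have hk : coeff 0 f ≠ 0 := by
          intro hk; apply hf0; rw [hC, hk, map_zero]
        have h5 : (1 : MvPolynomial ι ℂ) = C (coeff 0 f)⁻¹ * C (coeff 0 f) := by
          rw [← C_mul, inv_mul_cancel₀ hk, C_1]
        rw [h5, ← hC]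
        exact Ideal.mul_mem_left _ _ hf
    have hbot : ∀ f ∈ I, f = 0 := by
      intro f hf
      apply MvPolynomial.funext
      intro x
      rw [map_zero]
      exact hall x f hf
    have hpos : 0 < Fintype.card ι := by omega
    obtain ⟨i₀⟩ := Fintype.card_pos_iff.1 hpos
    have hr : r = 0 := by
      rw [← hI.rank (Pi.single i₀ 1) (hall _) (by
        intro h; simpa using congrFun h i₀)]
      have : N I (Pi.single i₀ 1) = ⊥ := by
        rw [eq_bot_iff]
        intro v hv
        obtain ⟨f, hf, rfl⟩ := mem_N.1 hv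
        rw [hbot f hf]
        have : dif (0 : MvPolynomial ι ℂ) (Pi.single i₀ 1) = 0 := by
          funext k; simp [dif]
        rw [this]
        exact Submodule.zero_mem _
      rw [this, finrank_bot]
    exact ⟨by omega, by omega⟩
  · obtain ⟨w, hw1, hw⟩ := weights_of_order a ha hd hord
    exact core2 ι I r w hI (fun t ht x hx => stab_of_rel I a ha hcut hstab w hw ht hx) hnd hw1
      hcard

/-- the nondegenerate case for one diagonalizable automorphism of large order -/
theorem core_order (ι : Type) [Fintype ι] [DecidableEq ι] (I : Ideal (MvPolynomial ι ℂ))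
    (r d : ℕ) (hI : Smooth I r) (A : (ι → ℂ) ≃ₗ[ℂ] (ι → ℂ)) (a : ι → ℂ) (ha : ∀ i, a i ≠ 0)
    (hstab : ∀ x ∈ cone I, A (fun i => a i * A.symm x i) ∈ cone I)
    (hnd : ∀ s, (∀ x ∈ cone I, s ⬝ᵥ x = 0) → s = 0)
    (hcut : ∀ x, (∀ f ∈ I, ∀ e ≤ d, f.IsHomogeneous e → eval x f = 0) → x ∈ cone I)
    (hord : ∀ N, 0 < N → N ≤ (2 * d) ^ (Fintype.card ι - 1) → ∃ i j, a i ^ N ≠ a j ^ N)
    (hcard : 23 * r < Fintype.card ι) :
    r ≤ 1 ∧ (r = 1 → ∀ G e, I = Ideal.span {G} → G.IsHomogeneous e → e ≤ 2) := by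
  classical
  let L : (ι → ℂ) →ₗ[ℂ] (ι → ℂ) := A.toLinearMap
  let M : (ι → ℂ) →ₗ[ℂ] (ι → ℂ) := A.symm.toLinearMap
  have hL : ∀ z, L z = A z := fun _ => rfl
  have hM : ∀ z, M z = A.symm z := fun _ => rfl
  have hInv : Inv L M I :=
    { ML := fun z => A.symm_apply_apply z
      LM := fun x _ => A.apply_symm_apply x }
  have hp := hI.prime
  have hker : Module.finrank ℂ (LinearMap.ker (tr L)) = 0 := by
    have := finrank_ker_tr hInv
    omega
  have hsm : Smooth (pull M I) r :=
    { prime := pull_isPrime hInv hp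
      homog := fun g hg d => by
        change sub M _ ∈ I
        rw [← homogeneousComponent_sub]
        exact hI.homog _ hg d
      rank := fun z hz hz0 => by
        have h1 := finrank_N_pull hInv hp z
        rw [hI.rank _ ((cone_pull hInv hp).1 hz) (L_ne_zero hInv hp hz0), hker] at h1
        omega }
  have key := core_order_diag ι (pull M I) r d hsm a ha ?_ ?_ ?_ hord hcard
  · refine ⟨key.1, fun hr G e hG he => ?_⟩
    refine key.2 hr (sub L G) e ?_ (sub_homog L he)
    have hML : M ∘ₗ L = LinearMap.id := LinearMap.ext fun z => hInv.ML z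
    have hLM : L ∘ₗ M = LinearMap.id := LinearMap.ext fun z => by
      change A (A.symm z) = z
      exact A.apply_symm_apply z
    apply le_antisymm
    · intro g hg
      have h1 : sub M g ∈ I := hg
      rw [hG, Ideal.mem_span_singleton] at h1
      obtain ⟨q, hq⟩ := h1
      rw [Ideal.mem_span_singleton]
      refine ⟨sub L q, ?_⟩
      rw [← map_mul, ← hq, sub_comp, hML, sub_id]
    · rw [Ideal.span_le, Set.singleton_subset_iff]
      have h2 : G ∈ I := by rw [hG]; exact Ideal.mem_span_singleton_self _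
      exact (sub_mem_pull hInv hp).2 h2
  · intro z hz
    rw [cone_pull hInv hp, hL] at hz ⊢
    have := hstab _ hz
    rwa [A.symm_apply_apply] at this
  · intro s hs
    have h1 : tr M s = 0 := by
      apply hnd
      intro x hx
      rw [tr_dot, hM]
      apply hs
      rw [cone_pull hInv hp, hL, A.apply_symm_apply]
      exact hx
    have h2 : ∀ v : ι → ℂ, s ⬝ᵥ v = 0 := by
      intro v
      have h3 := tr_dot M s (L v)
      rw [h1, zero_dotProduct, hInv.ML] at h3
      exact h3.symm
    funext i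
    have := h2 (Pi.single i 1)
    simpa using this
  · intro x hx
    rw [cone_pull hInv hp]
    apply hcut
    intro f hf e he hfe
    have := hx (sub L f) ((sub_mem_pull hInv hp).2 hf) e he (sub_homog L hfe)
    rwa [H15.Hart.eval_sub] at this

end Pool.Agent.H25.Hart
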