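import Pool.Agent.H89.Hart.Zak

/-! Components of intersections inside an irreducible closed cone; cylinders. -/

open MvPolynomial

set_option linter.unusedSectionVars false

namespace Pool.Agent.H25.Hart

open H89.Hart

section comp

variable {σ : Type*} [Fintype σ]

attribute [local instance] MvPolynomial.gradedAlgebra in
/-- a component, through a given point, of the intersection of an irreducible closed cone with
hypersurfaces -/
theorem exists_component_over (P₀ : Ideal (MvPolynomial σ ℂ)) (hP₀ : P₀.IsPrime)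
    (hP₀h : ∀ f ∈ P₀, ∀ d, homogeneousComponent d f ∈ P₀) {α : Type*} [Fintype α]
    (g : α → MvPolynomial σ ℂ) (hg : ∀ a, ∃ d, (g a).IsHomogeneous d) (q : σ → ℂ)
    (hq0 : q ∈ cone P₀) (hq : ∀ a, eval q (g a) = 0) :
    ∃ P : Ideal (MvPolynomial σ ℂ), P.IsPrime ∧ (∀ f ∈ P, ∀ d, homogeneousComponent d f ∈ P) ∧
      P₀ ≤ P ∧ (∀ a, g a ∈ P) ∧ q ∈ cone P ∧
      ringKrullDim (MvPolynomial σ ℂ ⧸ P₀) ≤
        ringKrullDim (MvPolynomial σ ℂ ⧸ P) + Fintype.card α := by
  classical
  set M : Ideal (MvPolynomial σ ℂ) := vanishingIdeal ℂ {q} with hM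
  have hMmax : M.IsMaximal := by rw [hM]; infer_instance
  have hP₀M : P₀ ≤ M := le_vanishing hq0
  set J : Ideal (MvPolynomial σ ℂ) := P₀ ⊔ Ideal.span (Set.range g) with hJ
  have hgM : ∀ a, g a ∈ M := by
    intro a
    rw [hM, mem_vanishingIdeal_singleton_iff]
    simpa using hq a
  have hJM : J ≤ M := sup_le hP₀M (Ideal.span_le.mpr (by rintro _ ⟨a, rfl⟩; exact hgM a))
  -- the ring `A = S / P₀`
  have hA : IsDomain (MvPolynomial σ ℂ ⧸ P₀) := Ideal.Quotient.isDomain P₀
  let MA : Ideal (MvPolynomial σ ℂ ⧸ P₀) := M.map (Ideal.Quotient.mk P₀)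
  have hMA : MA.IsMaximal := by
    refine .map_of_surjective_of_ker_le Ideal.Quotient.mk_surjective ?_
    rw [Ideal.mk_ker]
    exact hP₀M
  have hmemMA : ∀ f, Ideal.Quotient.mk P₀ f ∈ MA ↔ f ∈ M := fun f =>
    Ideal.mem_quotient_iff_mem hP₀M
  let gA : α → MvPolynomial σ ℂ ⧸ P₀ := fun a => Ideal.Quotient.mk P₀ (g a)
  have hgMA : Set.range gA ⊆ (MA : Set (MvPolynomial σ ℂ ⧸ P₀)) := by
    rintro _ ⟨a, rfl⟩
    exact (hmemMA _).2 (hgM a)
  set JA : Ideal (MvPolynomial σ ℂ ⧸ P₀) := Ideal.span (Set.range gA) with hJA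
  have hJMA : JA ≤ MA := Ideal.span_le.mpr hgMA
  have h1 := Ideal.height_le_height_add_encard_of_subset (Set.range gA) (p := MA) hgMA
  rw [← hJA] at h1
  have hMA' : (MA.map (Ideal.Quotient.mk JA)).IsPrime :=
    Ideal.isPrime_map_quotientMk_of_isPrime hJMA
  obtain ⟨l, hl1, hl2⟩ := Ideal.exists_ltSeries_length_eq_height (MA.map (Ideal.Quotient.mk JA))
  rw [← hl2] at h1
  have hcard : (Set.range gA).encard ≤ Fintype.card α := by
    rw [← Set.image_univ]
    refine (Set.encard_image_le gA Set.univ).trans ?_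
    simp [Set.encard_univ]
  -- the composite map
  let φ : MvPolynomial σ ℂ →+* ((MvPolynomial σ ℂ ⧸ P₀) ⧸ JA) :=
    (Ideal.Quotient.mk JA).comp (Ideal.Quotient.mk P₀)
  have hφ : Function.Surjective φ :=
    Ideal.Quotient.mk_surjective.comp Ideal.Quotient.mk_surjective
  have hφJ : ∀ f ∈ J, φ f = 0 := by
    have : J ≤ RingHom.ker φ := by
      refine sup_le ?_ (Ideal.span_le.2 ?_)
      · intro f hf
        rw [RingHom.mem_ker]
        simp only [φ, RingHom.comp_apply]
        rw [Ideal.Quotient.eq_zero_iff_mem.2 hf, map_zero]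
      · rintro _ ⟨a, rfl⟩
        exact Ideal.Quotient.eq_zero_iff_mem.2 (Ideal.subset_span ⟨a, rfl⟩)
    intro f hf
    exact RingHom.mem_ker.1 (this hf)
  have hφM : ∀ f, φ f ∈ MA.map (Ideal.Quotient.mk JA) → f ∈ M := by
    intro f hf
    have : Ideal.Quotient.mk P₀ f ∈ MA := (Ideal.mem_quotient_iff_mem hJMA).1 hf
    exact (hmemMA f).1 this
  let Q0 : Ideal (MvPolynomial σ ℂ) := l.head.asIdeal.comap φ
  have hJQ0 : J ≤ Q0 := by
    intro f hf
    change φ f ∈ l.head.asIdeal
    rw [hφJ f hf]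
    exact zero_mem _
  have hQ0M : Q0 ≤ M := by
    have h2 : l.head.asIdeal ≤ MA.map (Ideal.Quotient.mk JA) := by
      have := l.head_le_last
      rw [hl1] at this
      exact this
    intro f hf
    exact hφM f (h2 hf)
  obtain ⟨P, hPmin, hPQ⟩ := Ideal.exists_minimalPrimes_le (I := J) (J := Q0) hJQ0
  have hPprime : P.IsPrime := hPmin.1.1
  have hJP : J ≤ P := hPmin.1.2
  refine ⟨P, hPprime, ?_, le_sup_left.trans hJP, ?_, ?_, ?_⟩
  · have hcore : (P.homogeneousCore (homogeneousSubmodule σ ℂ)).toIdeal.IsPrime :=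
      Ideal.IsPrime.homogeneousCore (𝒜 := homogeneousSubmodule σ ℂ) hPprime
    have hle : (P.homogeneousCore (homogeneousSubmodule σ ℂ)).toIdeal ≤ P :=
      Ideal.toIdeal_homogeneousCore_le _ _
    have hJcore : J ≤ (P.homogeneousCore (homogeneousSubmodule σ ℂ)).toIdeal := by
      refine sup_le ?_ (Ideal.span_le.mpr ?_)
      · intro f hf
        rw [← sum_homogeneousComponent f]
        refine Ideal.sum_mem _ fun d _ => ?_
        refine Ideal.mem_homogeneousCore_of_homogeneous_of_mem
          ⟨d, homogeneousComponent_isHomogeneous d f⟩ (hJP (Ideal.mem_sup_left (hP₀h f hf d)))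
      · rintro _ ⟨a, rfl⟩
        obtain ⟨d, hd⟩ := hg a
        exact Ideal.mem_homogeneousCore_of_homogeneous_of_mem ⟨d, hd⟩
          (hJP (Ideal.mem_sup_right (Ideal.subset_span ⟨a, rfl⟩)))
    have heq : P ≤ (P.homogeneousCore (homogeneousSubmodule σ ℂ)).toIdeal :=
      hPmin.2 ⟨hcore, hJcore⟩ hle
    have hPh : P.IsHomogeneous (homogeneousSubmodule σ ℂ) := by
      rw [Ideal.IsHomogeneous.iff_eq]
      exact le_antisymm hle heq
    intro f hf d
    exact homogeneousComponent_mem_of_mem hPh hf d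
  · intro a
    exact hJP (Ideal.mem_sup_right (Ideal.subset_span ⟨a, rfl⟩))
  · intro f hf
    have : f ∈ M := hQ0M (hPQ hf)
    rw [hM, mem_vanishingIdeal_singleton_iff] at this
    simpa using this
  · have hdim : (l.length : WithBot ℕ∞) ≤ ringKrullDim (MvPolynomial σ ℂ ⧸ P) := by
      rw [ringKrullDim_quotient]
      let l' : LTSeries (PrimeSpectrum.zeroLocus (R := MvPolynomial σ ℂ) P) :=
        { length := l.length
          toFun := fun i => ⟨PrimeSpectrum.comap φ (l i), by
            rw [PrimeSpectrum.mem_zeroLocus]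
            have h4 : l.head ≤ l i := LTSeries.monotone l (Fin.zero_le i)
            intro f hf
            exact h4 (hPQ hf)⟩
          step := by
            intro i
            have h5 := l.step i
            exact (RingHom.strictMono_comap_of_surjective hφ) h5 }
      exact Order.LTSeries.length_le_krullDim l'
    have h6 : MA.height ≤ l.length + Fintype.card α := h1.trans (by gcongr)
    calc ringKrullDim (MvPolynomial σ ℂ ⧸ P₀) = (MA.height : WithBot ℕ∞) :=
          (height_eq_dim (K := ℂ) MA).symm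
      _ ≤ ((l.length + Fintype.card α : ℕ∞) : WithBot ℕ∞) := by exact_mod_cast h6
      _ = (l.length : WithBot ℕ∞) + Fintype.card α := rfl
      _ ≤ _ := by gcongr

end comp

section cyl

variable {κ : Type*} [Fintype κ] [DecidableEq κ]

/-- `ℂ[κ, T] = ℂ[κ][T]` -/
noncomputable def oe (κ : Type*) :
    MvPolynomial (Option κ) ℂ ≃+* Polynomial (MvPolynomial κ ℂ) :=
  (optionEquivLeft ℂ κ).toRingEquiv

theorem oe_apply (f : MvPolynomial (Option κ) ℂ) : oe κ f = optionEquivLeft ℂ κ f := rfl

/-- the ideal of the cylinder over the zero set of `P` -/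
noncomputable def cyl (P : Ideal (MvPolynomial κ ℂ)) : Ideal (MvPolynomial (Option κ) ℂ) :=
  (P.map (Polynomial.C : MvPolynomial κ ℂ →+* Polynomial (MvPolynomial κ ℂ))).comap
    (oe κ : MvPolynomial (Option κ) ℂ →+* Polynomial (MvPolynomial κ ℂ))

theorem mem_cyl {P : Ideal (MvPolynomial κ ℂ)} {f : MvPolynomial (Option κ) ℂ} :
    f ∈ cyl P ↔ ∀ n, (optionEquivLeft ℂ κ f).coeff n ∈ P := by
  unfold cyl
  rw [Ideal.mem_comap, Ideal.mem_map_C_iff]
  rfl

theorem cyl_prime {P : Ideal (MvPolynomial κ ℂ)} (hP : P.IsPrime) : (cyl P).IsPrime := by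
  unfold cyl
  have : (P.map (Polynomial.C : MvPolynomial κ ℂ →+* Polynomial (MvPolynomial κ ℂ))).IsPrime :=
    (Ideal.isPrime_map_C_iff_isPrime P).2 hP
  exact Ideal.comap_isPrime _ _

theorem eval_optionEquivLeft (v : Option κ → ℂ) (f : MvPolynomial (Option κ) ℂ) :
    eval v f = ((optionEquivLeft ℂ κ f).map (eval fun k => v (some k))).eval (v none) := by
  have h : ((aeval v : MvPolynomial (Option κ) ℂ →ₐ[ℂ] ℂ) : MvPolynomial (Option κ) ℂ →+* ℂ) =
      ((Polynomial.evalRingHom (v none)).comp (Polynomial.mapRingHom (eval fun k => v (some k)))).comp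
        ((optionEquivLeft ℂ κ : MvPolynomial (Option κ) ℂ ≃ₐ[ℂ] _) :
          MvPolynomial (Option κ) ℂ →+* Polynomial (MvPolynomial κ ℂ)) := by
    apply MvPolynomial.ringHom_ext
    · intro c
      simp
    · intro i
      rcases i with _ | k
      · simp
      · simp
  have h2 := RingHom.congr_fun h f
  simpa [aeval_eq_eval] using h2

theorem mem_cone_cyl {P : Ideal (MvPolynomial κ ℂ)} {v : Option κ → ℂ} :
    v ∈ cone (cyl P) ↔ (fun k => v (some k)) ∈ cone P := by
  constructor
  · intro h f hf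
    have h1 : rename some f ∈ cyl P := by
      rw [mem_cyl]
      intro n
      have : optionEquivLeft ℂ κ (rename some f) = Polynomial.C f := by
        have h3 : ((optionEquivLeft ℂ κ : MvPolynomial (Option κ) ℂ ≃ₐ[ℂ] _) :
            MvPolynomial (Option κ) ℂ →+* Polynomial (MvPolynomial κ ℂ)).comp
            ((rename some : MvPolynomial κ ℂ →ₐ[ℂ] MvPolynomial (Option κ) ℂ) :
              MvPolynomial κ ℂ →+* MvPolynomial (Option κ) ℂ) = Polynomial.C := by
          apply MvPolynomial.ringHom_ext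
          · intro c
            simp
          · intro k
            simp
        exact RingHom.congr_fun h3 f
      rw [this, Polynomial.coeff_C]
      split_ifs
      · exact hf
      · exact zero_mem _
    have h2 := h _ h1
    rwa [eval_rename] at h2
  · intro h f hf
    rw [eval_optionEquivLeft]
    have : (optionEquivLeft ℂ κ f).map (eval fun k => v (some k)) = 0 := by
      ext n
      rw [Polynomial.coeff_map, Polynomial.coeff_zero]
      exact h _ (mem_cyl.1 hf n)
    rw [this, Polynomial.eval_zero]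

/-- a prime ideal whose zero set is stable under scaling is homogeneous -/
theorem homogeneous_of_scaling {σ : Type*} [Fintype σ] [DecidableEq σ]
    {P : Ideal (MvPolynomial σ ℂ)} (hP : P.IsPrime)
    (h : ∀ x ∈ cone P, ∀ c : ℂ, c • x ∈ cone P) :
    ∀ f ∈ P, ∀ d, homogeneousComponent d f ∈ P := by
  intro f hf d
  apply mem_of_cone hP
  intro x hx
  -- the polynomial `∑ (f_d x) T ^ d`
  set p : Polynomial ℂ := ∑ e ∈ Finset.range (f.totalDegree + 1),
    Polynomial.C (eval x (homogeneousComponent e f)) * Polynomial.X ^ e with hp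
  have h1 : p = 0 := by
    apply Polynomial.funext
    intro c
    rw [Polynomial.eval_zero, hp, Polynomial.eval_finsetSum]
    have h2 := h x hx c f hf
    rw [← sum_homogeneousComponent f, map_sum] at h2
    rw [← h2]
    refine Finset.sum_congr rfl fun e _ => ?_
    rw [eval_smul_homog (homogeneousComponent_isHomogeneous e f) c x, Polynomial.eval_mul,
      Polynomial.eval_C, Polynomial.eval_pow, Polynomial.eval_X, mul_comm]
  by_cases hd : d ≤ f.totalDegree
  · have h2 := congrArg (fun q => Polynomial.coeff q d) h1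
    simp only [hp, Polynomial.finsetSum_coeff, Polynomial.coeff_C_mul, Polynomial.coeff_X_pow,
      Polynomial.coeff_zero] at h2
    rw [Finset.sum_eq_single d] at h2
    · simpa using h2
    · intro e _ hed
      rw [if_neg (Ne.symm hed), mul_zero]
    · intro hnot
      exact absurd (Finset.mem_range.2 (by omega)) hnot
  · rw [homogeneousComponent_eq_zero _ _ (by omega), map_zero]

theorem smul_mem_of_homogeneous {σ : Type*} [Fintype σ] [DecidableEq σ]
    {P : Ideal (MvPolynomial σ ℂ)} (hPh : ∀ f ∈ P, ∀ d, homogeneousComponent d f ∈ P)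
    {x : σ → ℂ} (hx : x ∈ cone P) (c : ℂ) : c • x ∈ cone P := by
  intro f hf
  rw [← sum_homogeneousComponent f, map_sum]
  refine Finset.sum_eq_zero fun e _ => ?_
  rw [eval_smul_homog (homogeneousComponent_isHomogeneous e f) c x, hx _ (hPh f hf e), mul_zero]

theorem cyl_homogeneous {P : Ideal (MvPolynomial κ ℂ)} (hP : P.IsPrime)
    (hPh : ∀ f ∈ P, ∀ d, homogeneousComponent d f ∈ P) :
    ∀ f ∈ cyl P, ∀ d, homogeneousComponent d f ∈ cyl P := by
  apply homogeneous_of_scaling (cyl_prime hP)
  intro x hx c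
  rw [mem_cone_cyl] at hx ⊢
  exact smul_mem_of_homogeneous hPh hx c

theorem dim_cyl (P : Ideal (MvPolynomial κ ℂ)) :
    ringKrullDim (MvPolynomial (Option κ) ℂ ⧸ cyl P) =
      ringKrullDim (MvPolynomial κ ℂ ⧸ P) + 1 := by
  rw [← Polynomial.ringKrullDim_of_isNoetherianRing]
  refine ringKrullDim_eq_of_ringEquiv ?_
  refine (Ideal.quotientEquiv (cyl P)
    (P.map (Polynomial.C : MvPolynomial κ ℂ →+* Polynomial (MvPolynomial κ ℂ)))
    (oe κ) ?_).trans
    (Ideal.polynomialQuotientEquivQuotientPolynomial P).symm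
  unfold cyl
  exact (Ideal.map_comap_of_surjective _ (oe κ).surjective _).symm

end cyl

end Pool.Agent.H25.Hart
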