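import Pool.Agent.H25.Hart.ZakStar

/-! Smooth varieties with a homology of finite order whose centre lies on the variety: the
geometric argument, starting from the local equations at the centre. -/

open MvPolynomial

set_option linter.unusedSectionVars false

namespace Pool.Agent.H25.Hart

open H89.Hart

variable {ι : Type*} [Fintype ι] [DecidableEq ι]

/-- Local equations `G l = s_l x_o ^ (e l) + b_l` of `I` at the point `o`, `e l ∈ {0, m}`. -/
structure Gal (I : Ideal (MvPolynomial ι ℂ)) (r m : ℕ) (o : ι) where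
  smooth : Smooth I r
  hm : 1 ≤ m
  ho : (Pi.single o 1 : ι → ℂ) ∈ cone I
  s : Fin r → ι → ℂ
  e : Fin r → ℕ
  b : Fin r → MvPolynomial ι ℂ
  he : ∀ l, e l = 0 ∨ e l = m
  hb0 : ∀ l, e l = 0 → b l = 0
  hbh : ∀ l, (b l).IsHomogeneous (e l + 1)
  hbt : ∀ l (x : ι → ℂ) (t : ℂ), eval (x + t • Pi.single o 1) (b l) = eval x (b l)
  hso : ∀ l, s l o = 0
  hli : LinearIndependent ℂ s
  hG : ∀ l, lf (s l) * X o ^ (e l) + b l ∈ I
  hlin : ∀ v : ι → ℂ, lf v ∈ I → v ∈ Submodule.span ℂ (s '' {l | e l = 0})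

namespace Gal

variable {I : Ideal (MvPolynomial ι ℂ)} {r m : ℕ} {o : ι} (S : Gal I r m o)

/-- the equations -/
noncomputable def G (l : Fin r) : MvPolynomial ι ℂ := lf (S.s l) * X o ^ (S.e l) + S.b l

theorem G_mem (l : Fin r) : S.G l ∈ I := S.hG l

theorem G_homog (l : Fin r) : (S.G l).IsHomogeneous (S.e l + 1) := by
  refine IsHomogeneous.add ?_ (S.hbh l)
  have := (lf_homog (S.s l)).mul ((isHomogeneous_X ℂ o).pow (S.e l))
  rwa [one_mul, add_comm] at this

theorem eval_G (l : Fin r) (x : ι → ℂ) :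
    eval x (S.G l) = (S.s l ⬝ᵥ x) * x o ^ (S.e l) + eval x (S.b l) := by
  simp [G, eval_lf]

theorem s_add (l : Fin r) (x : ι → ℂ) (t : ℂ) :
    S.s l ⬝ᵥ (x + t • Pi.single o 1) = S.s l ⬝ᵥ x := by
  rw [dotProduct_add, dotProduct_smul, dotProduct_single, S.hso]
  simp

theorem dif_b (l : Fin r) (x : ι → ℂ) (t : ℂ) :
    dif (S.b l) (x + t • Pi.single o 1) = dif (S.b l) x := by
  have h : ∀ u : ι → ℂ, dif (S.b l) (x + t • Pi.single o 1) ⬝ᵥ u = dif (S.b l) x ⬝ᵥ u := by
    intro u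
    rw [← coeff_one_ln, ← coeff_one_ln]
    congr 1
    apply Polynomial.funext
    intro τ
    rw [eval_ln, eval_ln, ← S.hbt l (x + τ • u) t, add_right_comm]
  funext k
  have := h (Pi.single k 1)
  rwa [dotProduct_single, dotProduct_single, mul_one, mul_one] at this

theorem dif_b_zero (l : Fin r) : dif (S.b l) 0 = 0 := by
  rcases S.he l with h | h
  · rw [S.hb0 l h, dif_zero]
  · funext k
    have h1 : (pderiv k (S.b l)).IsHomogeneous m := by
      have := (S.hbh l).pderiv (i := k)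
      rwa [h, Nat.add_sub_cancel] at this
    have h2 := eval_smul_homog h1 0 0
    rw [zero_smul, zero_pow (by have := S.hm; omega), zero_mul] at h2
    exact h2

theorem dif_G (l : Fin r) {x : ι → ℂ} (hx : S.s l ⬝ᵥ x = 0) :
    dif (S.G l) x = x o ^ (S.e l) • S.s l + dif (S.b l) x := by
  rw [G, dif_add, dif_mul, dif_lf, eval_lf, hx, zero_smul, zero_add]
  simp

theorem pt_ne : (Pi.single o 1 : ι → ℂ) ≠ 0 := by
  intro h
  have := congrFun h o
  simp at this

theorem dif_G_pt (l : Fin r) : dif (S.G l) (Pi.single o 1) = S.s l := by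
  rw [S.dif_G l (by rw [dotProduct_single, S.hso, zero_mul])]
  have h : (Pi.single o 1 : ι → ℂ) = 0 + (1 : ℂ) • Pi.single o 1 := by simp
  rw [h, S.dif_b, S.dif_b_zero]
  simp

/-- the part of `G l = 0` in the tangent space at the centre lies on the variety -/
theorem mem_of_tangent {x : ι → ℂ} (hx : ∀ l, S.s l ⬝ᵥ x = 0) (hGx : ∀ l, eval x (S.b l) = 0) :
    x ∈ cone I := by
  set p : ι → ℂ := Pi.single o 1 with hp
  set u : ι → ℂ := x + (-x o) • p with hu
  have hxu : ∀ a : ℂ, ∀ l, eval (u + a • p) (S.b l) = 0 := by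
    intro a l
    rw [hu, S.hbt, S.hbt, hGx]
  have hsu : ∀ l, S.s l ⬝ᵥ u = 0 := by
    intro l
    rw [hu, S.s_add, hx]
  have hline : ∀ t : ℂ, p + t • u ∈ cone I := by
    refine line_mem S.smooth S.G S.G_mem S.ho pt_ne ?_ u ?_
    · have : (fun l => dif (S.G l) p) = S.s := funext fun l => S.dif_G_pt l
      rw [this]
      exact S.hli
    · intro l t
      rw [eval_G]
      have h1 : S.s l ⬝ᵥ (p + t • u) = 0 := by
        rw [dotProduct_add, dotProduct_smul, hsu, hp, dotProduct_single, S.hso]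
        simp
      have h2 : eval (p + t • u) (S.b l) = 0 := by
        have h3 : p + t • u = t • u + (1 : ℂ) • p := by rw [one_smul, add_comm]
        rw [h3, S.hbt, eval_smul_homog (S.hbh l)]
        have := hxu 0 l
        rw [zero_smul, add_zero] at this
        rw [this, mul_zero]
      rw [h1, h2, zero_mul, add_zero]
  intro f hf
  have h1 : ln u p f * Polynomial.X = 0 := by
    apply Polynomial.funext
    intro a
    rw [Polynomial.eval_mul, Polynomial.eval_X, Polynomial.eval_zero, eval_ln]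
    by_cases ha : a = 0
    · rw [ha, mul_zero]
    · have h2 : u + a • p = a • (p + a⁻¹ • u) := by
        rw [smul_add, smul_smul, mul_inv_cancel₀ ha, one_smul, add_comm]
      rw [h2, smul_mem_cone S.smooth (hline a⁻¹) a f hf, zero_mul]
  have h2 : ln u p f = 0 := (mul_eq_zero.1 h1).resolve_right Polynomial.X_ne_zero
  have h3 := eval_ln u p f (x o)
  rw [h2, Polynomial.eval_zero] at h3
  have h4 : u + x o • p = x := by
    rw [hu, add_assoc, ← add_smul, neg_add_cancel, zero_smul, add_zero]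
  rw [h4] at h3
  exact h3.symm

theorem eval_b {x : ι → ℂ} (hx : ∀ l, S.s l ⬝ᵥ x = 0) (hG : ∀ l, eval x (S.G l) = 0) (l : Fin r) :
    eval x (S.b l) = 0 := by
  have := hG l
  rwa [eval_G, hx, zero_mul, zero_add] at this

/-- a linear combination of the equations -/
noncomputable def comb (c : Fin r → ℂ) : MvPolynomial ι ℂ := ∑ l, C (c l) * S.G l

/-- its linear part at the centre -/
noncomputable def sv (c : Fin r → ℂ) : ι → ℂ := ∑ l, c l • S.s l

/-- the remaining part of the differential -/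
noncomputable def bv (c : Fin r → ℂ) (x : ι → ℂ) : ι → ℂ := ∑ l, c l • dif (S.b l) x

theorem comb_mem (c : Fin r → ℂ) : S.comb c ∈ I :=
  I.sum_mem fun l _ => I.mul_mem_left _ (S.G_mem l)

theorem dif_C_mul (c : ℂ) (f : MvPolynomial ι ℂ) (x : ι → ℂ) : dif (C c * f) x = c • dif f x := by
  rw [← smul_eq_C_mul, dif_smul]

theorem dif_comb (c : Fin r → ℂ) (x : ι → ℂ) :
    dif (S.comb c) x = ∑ l, c l • dif (S.G l) x := by
  rw [comb, dif_sum]
  exact Finset.sum_congr rfl fun l _ => dif_C_mul _ _ _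

theorem comb_add (c c' : Fin r → ℂ) : S.comb (c + c') = S.comb c + S.comb c' := by
  rw [comb, comb, comb, ← Finset.sum_add_distrib]
  refine Finset.sum_congr rfl fun l _ => ?_
  rw [Pi.add_apply, C_add]
  ring

theorem comb_homog {c : Fin r → ℂ} {d : ℕ} (hc : ∀ l, c l ≠ 0 → S.e l = d) :
    (S.comb c).IsHomogeneous (d + 1) := by
  apply IsHomogeneous.sum
  intro l _
  by_cases h : c l = 0
  · rw [h, C_0, zero_mul]
    exact isHomogeneous_zero _ _ _
  · have := (isHomogeneous_C ι (c l)).mul (S.G_homog l)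
    rwa [hc l h, zero_add] at this

/-- the coefficients of the equations of degree one -/
noncomputable def c0 (g : Fin r → ℂ) : Fin r → ℂ := fun l => if S.e l = 0 then g l else 0

/-- the coefficients of the equations of degree `m + 1` -/
noncomputable def c1 (g : Fin r → ℂ) : Fin r → ℂ := fun l => if S.e l = 0 then 0 else g l

theorem c0_add_c1 (g : Fin r → ℂ) : S.c0 g + S.c1 g = g := by
  funext l
  simp only [c0, c1, Pi.add_apply]
  split_ifs <;> simp

theorem c0_ne {g : Fin r → ℂ} {l : Fin r} (h : S.c0 g l ≠ 0) : S.e l = 0 := by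
  by_contra h1
  exact h (if_neg h1)

theorem c1_ne {g : Fin r → ℂ} {l : Fin r} (h : S.c1 g l ≠ 0) : S.e l = m := by
  rcases S.he l with h1 | h1
  · exact absurd (if_pos h1) h
  · exact h1

theorem dif_comb_one (g : Fin r → ℂ) {x : ι → ℂ} (hx : ∀ l, S.s l ⬝ᵥ x = 0) :
    dif (S.comb (S.c1 g)) x = x o ^ m • S.sv (S.c1 g) + S.bv (S.c1 g) x := by
  rw [dif_comb, sv, bv, Finset.smul_sum, ← Finset.sum_add_distrib]
  refine Finset.sum_congr rfl fun l _ => ?_
  rw [S.dif_G l (hx l)]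
  by_cases h : S.c1 g l = 0
  · simp [h]
  · rw [S.c1_ne h, smul_add, smul_smul, smul_smul, mul_comm]

theorem dif_comb_zero (g : Fin r → ℂ) {x : ι → ℂ} (hx : ∀ l, S.s l ⬝ᵥ x = 0) :
    dif (S.comb (S.c0 g)) x = S.sv (S.c0 g) := by
  rw [dif_comb, sv]
  refine Finset.sum_congr rfl fun l _ => ?_
  rw [S.dif_G l (hx l)]
  by_cases h : S.c0 g l = 0
  · simp [h]
  · have h1 := S.c0_ne h
    rw [h1, pow_zero, one_smul, S.hb0 l h1, dif_zero, add_zero]

theorem bv_add (c : Fin r → ℂ) (x : ι → ℂ) (t : ℂ) :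
    S.bv c (x + t • Pi.single o 1) = S.bv c x := by
  unfold bv
  simp only [S.dif_b]

theorem bv_pt (c : Fin r → ℂ) (t : ℂ) : S.bv c (t • Pi.single o 1) = 0 := by
  unfold bv
  refine Finset.sum_eq_zero fun l _ => ?_
  rw [← zero_add (t • (Pi.single o 1 : ι → ℂ)), S.dif_b, S.dif_b_zero, smul_zero]

/-- the component of the tangency locus -/
theorem exists_comp {x₁ : ι → ℂ} (hx₁ : x₁ ∈ cone I) (hx0 : x₁ ≠ 0)
    (hx : ∀ l, S.s l ⬝ᵥ x₁ = 0) {F : MvPolynomial ι ℂ} {d : ℕ} (hFI : F ∈ I)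
    (hF : F.IsHomogeneous d) (hF1 : dif F x₁ = 0) :
    ∃ P : Ideal (MvPolynomial ι ℂ), P.IsPrime ∧ (∀ f ∈ P, ∀ d, homogeneousComponent d f ∈ P) ∧
      I ≤ P ∧ (∀ x ∈ cone P, ∀ j, S.s j ⬝ᵥ x = 0) ∧ (∀ x ∈ cone P, dif F x = 0) ∧
      (Fintype.card ι : WithBot ℕ∞) ≤ ringKrullDim (MvPolynomial ι ℂ ⧸ P) + (3 * r : ℕ) := by
  obtain ⟨h, l, hhI, hhom, hli, hmat⟩ := exists_frame S.smooth hx₁ hx0
  obtain ⟨P, hP, hPh, hPg, hxP, hdim⟩ := exists_component
    (Sum.elim h (Sum.elim (fun j => lf (S.s j)) (fun j => dd (l j) F)) :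
      Fin r ⊕ (Fin r ⊕ Fin r) → MvPolynomial ι ℂ)
    (by
      rintro (j | j | j)
      · exact hhom j
      · exact ⟨1, lf_homog _⟩
      · refine ⟨d - 1, ?_⟩
        simp only [Sum.elim_inr, dd]
        apply IsHomogeneous.sum
        intro k _
        have := (isHomogeneous_C ι (l j k)).mul (hF.pderiv (i := k))
        rwa [zero_add] at this) x₁
    (by
      rintro (j | j | j)
      · exact hx₁ _ (hhI j)
      · simp only [Sum.elim_inr, Sum.elim_inl, eval_lf]
        exact hx j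
      · simp only [Sum.elim_inr, eval_dd, hF1, zero_dotProduct])
  have hIP : I ≤ P := le_of_local S.smooth h hhI hx₁ hx0 hli hP (fun j => hPg (Sum.inl j)) hxP
  have hPs : ∀ x ∈ cone P, ∀ j, S.s j ⬝ᵥ x = 0 := by
    intro x hx j
    have := hx _ (hPg (Sum.inr (Sum.inl j)))
    simpa [eval_lf] using this
  have hPd : ∀ k, pderiv k F ∈ P := by
    intro k
    have h1 : (mat h l).det * pderiv k F ∈ P := by
      apply mem_of_cone hP
      intro x hx
      have hxI : x ∈ cone I := cone_anti hIP hx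
      have h2 := frame_id S.smooth h hhI l hx₁ hx0 (by rw [hmat]; simp) hxI
        (mem_N.2 ⟨F, hFI, rfl⟩)
      have h3 : ∀ j, dif F x ⬝ᵥ l j = 0 := by
        intro j
        have := hx _ (hPg (Sum.inr (Sum.inr j)))
        simpa [eval_dd] using this
      have h4 : (matAt h l x).det • dif F x = 0 := by
        rw [h2]
        refine Finset.sum_eq_zero fun a _ => ?_
        rw [Finset.sum_eq_zero, zero_smul]
        intro j _
        rw [h3, zero_mul]
      rw [map_mul, eval_det_mat]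
      exact congrFun h4 k
    refine (hP.mem_or_mem h1).resolve_left fun h2 => ?_
    have := hxP _ h2
    rw [eval_det_mat, hmat, Matrix.det_one] at this
    exact one_ne_zero this
  have hcard : Fintype.card (Fin r ⊕ (Fin r ⊕ Fin r)) = 3 * r := by
    rw [Fintype.card_sum, Fintype.card_sum, Fintype.card_fin]
    ring
  rw [hcard] at hdim
  have hPd' : ∀ x ∈ cone P, dif F x = 0 := by
    intro x hx
    funext k
    show eval x (pderiv k F) = 0
    apply hx _ (hPd k)
  refine ⟨P, hP, hPh, hIP, hPs, hPd', ?_⟩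
  convert hdim

/-- the linear part of an honest combination does not vanish on the variety -/
theorem exists_sv_ne {g : Fin r → ℂ} {l₀ : Fin r} (h : S.c1 g l₀ ≠ 0) :
    ∃ y ∈ cone I, S.sv (S.c1 g) ⬝ᵥ y ≠ 0 := by
  by_contra hc
  push Not at hc
  have h0 : lf (S.sv (S.c1 g)) ∈ I :=
    mem_of_cone S.smooth.prime fun x hx => by rw [eval_lf]; exact hc x hx
  have h1 := S.hlin _ h0
  have h2 : S.sv (S.c1 g) ∈ Submodule.span ℂ (S.s '' {l | S.e l ≠ 0}) := by
    rw [sv]
    refine Submodule.sum_mem _ fun l _ => ?_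
    by_cases hl : S.e l = 0
    · have : S.c1 g l = 0 := if_pos hl
      rw [this, zero_smul]
      exact zero_mem _
    · exact Submodule.smul_mem _ _ (Submodule.subset_span ⟨l, hl, rfl⟩)
  have h3 : Disjoint {l | S.e l = 0} {l | S.e l ≠ 0} := by
    rw [Set.disjoint_left]
    intro l h1 h2
    exact h2 h1
  have h4 := (S.hli.disjoint_span_image h3)
  have h5 : S.sv (S.c1 g) = 0 := (Submodule.disjoint_def.1 h4) _ h1 h2
  exact h (Fintype.linearIndependent_iff.1 S.hli _ h5 l₀)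

/-- the set up of the tangency argument -/
structure Tan (g : Fin r → ℂ) where
  P : Ideal (MvPolynomial ι ℂ)
  hP : P.IsPrime
  hPh : ∀ f ∈ P, ∀ d, homogeneousComponent d f ∈ P
  hIP : I ≤ P
  hPs : ∀ x ∈ cone P, ∀ j, S.s j ⬝ᵥ x = 0
  ρ : MvPolynomial ι ℂ
  hd : ∀ x ∈ cone P, x o ^ m • S.sv (S.c1 g) + S.bv (S.c1 g) x +
    (eval x ρ) ^ m • S.sv (S.c0 g) = 0

theorem exists_tan {x₁ : ι → ℂ} (hx0 : x₁ ≠ 0) (hx : ∀ l, S.s l ⬝ᵥ x₁ = 0)
    (hGx : ∀ l, eval x₁ (S.b l) = 0) {g : Fin r → ℂ} (hg : ∑ l, g l • dif (S.G l) x₁ = 0) :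
    ∃ T : S.Tan g, (Fintype.card ι : WithBot ℕ∞) ≤
      ringKrullDim (MvPolynomial ι ℂ ⧸ T.P) + (3 * r : ℕ) := by
  have hx₁ : x₁ ∈ cone I := S.mem_of_tangent hx hGx
  obtain ⟨i, hi⟩ : ∃ i, x₁ i ≠ 0 := by
    by_contra h
    push Not at h
    exact hx0 (funext h)
  have hρh : (C (x₁ i)⁻¹ * X i : MvPolynomial ι ℂ).IsHomogeneous 1 := by
    have := (isHomogeneous_C ι (x₁ i)⁻¹).mul (isHomogeneous_X ℂ i)
    simpa using this
  have hρ1 : eval x₁ (C (x₁ i)⁻¹ * X i : MvPolynomial ι ℂ) = 1 := by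
    simp [hi]
  generalize (C (x₁ i)⁻¹ * X i : MvPolynomial ι ℂ) = ρ at hρh hρ1
  have hd : ∀ x ∈ cone I, (∀ l, S.s l ⬝ᵥ x = 0) →
      dif (ρ ^ m * S.comb (S.c0 g) + S.comb (S.c1 g)) x = x o ^ m • S.sv (S.c1 g) +
        S.bv (S.c1 g) x + (eval x ρ) ^ m • S.sv (S.c0 g) := by
    intro x hxI hx
    rw [dif_add, dif_mul, hxI _ (S.comb_mem _), zero_smul, add_zero, map_pow,
      S.dif_comb_zero g hx, S.dif_comb_one g hx, add_comm]
  obtain ⟨P, hP, hPh, hIP, hPs, hPd, hdim⟩ := S.exists_comp (d := m + 1) hx₁ hx0 hx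
    (F := ρ ^ m * S.comb (S.c0 g) + S.comb (S.c1 g))
    (I.add_mem (I.mul_mem_left _ (S.comb_mem _)) (S.comb_mem _))
    (by
      refine IsHomogeneous.add ?_ (S.comb_homog fun l h => S.c1_ne h)
      have := (hρh.pow m).mul (S.comb_homog (c := S.c0 g) (d := 0) fun l h => S.c0_ne h)
      rwa [one_mul, zero_add] at this)
    (by
      rw [dif_add, dif_mul, hx₁ _ (S.comb_mem _), zero_smul, add_zero, map_pow, hρ1, one_pow,
        one_smul, ← dif_add, ← comb_add, c0_add_c1, dif_comb]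
      exact hg)
  refine ⟨⟨P, hP, hPh, hIP, hPs, ρ, fun x hx => ?_⟩, hdim⟩
  rw [← hd x (cone_anti hIP hx) (hPs x hx)]
  exact hPd x hx

variable {S}

theorem Tan.cyl_mem {g : Fin r → ℂ} (T : S.Tan g) {x : ι → ℂ} (hx : x ∈ cone T.P) (t : ℂ) :
    x + t • Pi.single o 1 ∈ cone I := by
  have hxI : x ∈ cone I := cone_anti T.hIP hx
  refine S.mem_of_tangent (fun l => by rw [S.s_add]; exact T.hPs x hx l) fun l => ?_
  rw [S.hbt]
  exact S.eval_b (T.hPs x hx) (fun l => hxI _ (S.G_mem l)) l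

theorem Tan.dif_mem {g : Fin r → ℂ} (T : S.Tan g) {x : ι → ℂ} (hx : x ∈ cone T.P) (t : ℂ) :
    ((x o + t) ^ m - x o ^ m) • S.sv (S.c1 g) ∈ N I (x + t • Pi.single o 1) := by
  have hxs := T.hPs x hx
  have hxs' : ∀ l, S.s l ⬝ᵥ (x + t • Pi.single o 1) = 0 := fun l => by rw [S.s_add]; exact hxs l
  have h1 := T.hd x hx
  have h2 := S.dif_comb_one g hxs'
  have h3 : (x + t • (Pi.single o 1 : ι → ℂ)) o = x o + t := by simp
  rw [h3, bv_add] at h2
  have h4 : ((x o + t) ^ m - x o ^ m) • S.sv (S.c1 g) =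
      dif (S.comb (S.c1 g)) (x + t • Pi.single o 1) +
        (eval x T.ρ) ^ m • dif (S.comb (S.c0 g)) (x + t • Pi.single o 1) := by
    rw [h2, S.dif_comb_zero g hxs', sub_smul, ← sub_zero ((x o + t) ^ m • S.sv (S.c1 g) +
      S.bv (S.c1 g) x + eval x T.ρ ^ m • S.sv (S.c0 g)), ← h1]
    module
  rw [h4]
  exact Submodule.add_mem _ (mem_N.2 ⟨_, S.comb_mem _, rfl⟩)
    (Submodule.smul_mem _ _ (mem_N.2 ⟨_, S.comb_mem _, rfl⟩))

theorem Tan.ne_zero {g : Fin r → ℂ} (T : S.Tan g) {l₀ : Fin r} (hl₀ : S.c1 g l₀ ≠ 0)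
    {x : ι → ℂ} (hx : x ∈ cone T.P) {t : ℂ} (hxt : x ≠ 0 ∨ t ≠ 0) :
    x + t • (Pi.single o 1 : ι → ℂ) ≠ 0 := by
  intro h0
  have hxe : x = (-t) • Pi.single o 1 := by
    rw [neg_smul]
    exact eq_neg_of_add_eq_zero_left h0
  by_cases ht : t = 0
  · subst ht
    rw [neg_zero, zero_smul] at hxe
    rcases hxt with h | h
    · exact h hxe
    · exact h rfl
  have h1 := T.hd x hx
  have h2 : S.bv (S.c1 g) x = 0 := by
    rw [hxe]
    exact S.bv_pt _ _
  have h3 : x o = -t := by rw [hxe]; simp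
  rw [h2, add_zero, h3] at h1
  have h4 : ∑ l, ((-t) ^ m * S.c1 g l + (eval x T.ρ) ^ m * S.c0 g l) • S.s l = 0 := by
    rw [← h1, sv, sv, Finset.smul_sum, Finset.smul_sum, ← Finset.sum_add_distrib]
    refine Finset.sum_congr rfl fun l _ => ?_
    rw [add_smul, smul_smul, smul_smul]
  have h5 := Fintype.linearIndependent_iff.1 S.hli _ h4 l₀
  have h6 : S.c0 g l₀ = 0 := by
    by_contra h7
    have := S.c0_ne h7
    have h8 := S.c1_ne hl₀
    have := S.hm
    omega
  rw [h6, mul_zero, add_zero, mul_eq_zero] at h5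
  rcases h5 with h5 | h5
  · exact pow_ne_zero m (neg_ne_zero.2 ht) h5
  · exact hl₀ h5

/-- finitely many exceptions -/
theorem eventually_pow_ne (a t : ℂ) {m : ℕ} (hm : 1 ≤ m) :
    ∀ᶠ τ in nhdsWithin t {t}ᶜ, (a + τ) ^ m - a ^ m ≠ 0 := by
  set q : Polynomial ℂ := (Polynomial.X + Polynomial.C a) ^ m - Polynomial.C (a ^ m) with hq
  have hq0 : q ≠ 0 := by
    intro h0
    have h1 : (Polynomial.X + Polynomial.C a) ^ m = Polynomial.C (a ^ m) := sub_eq_zero.1 h0
    have h2 := congrArg Polynomial.natDegree h1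
    rw [Polynomial.natDegree_C, Polynomial.natDegree_pow, Polynomial.natDegree_X_add_C,
      mul_one] at h2
    omega
  have hfin : (↑q.roots.toFinset : Set ℂ).Finite := Finset.finite_toSet _
  have h1 : IsClosed ((↑q.roots.toFinset : Set ℂ) \ {t}) := (hfin.subset Set.sdiff_subset).isClosed
  have h2 : ((↑q.roots.toFinset : Set ℂ) \ {t})ᶜ ∈ nhds t := h1.isOpen_compl.mem_nhds (by simp)
  filter_upwards [nhdsWithin_le_nhds h2, self_mem_nhdsWithin] with τ hτ1 hτ2 h3
  apply hτ1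
  refine ⟨?_, hτ2⟩
  simp only [Finset.mem_coe, Multiset.mem_toFinset]
  refine (Polynomial.mem_roots hq0).2 ?_
  rw [Polynomial.IsRoot, hq, Polynomial.eval_sub, Polynomial.eval_pow, Polynomial.eval_add,
    Polynomial.eval_X, Polynomial.eval_C, Polynomial.eval_C, add_comm]
  exact h3

theorem Tan.sv_mem {g : Fin r → ℂ} (T : S.Tan g) {l₀ : Fin r} (hl₀ : S.c1 g l₀ ≠ 0)
    {x : ι → ℂ} (hx : x ∈ cone T.P) {t : ℂ} (hxt : x ≠ 0 ∨ t ≠ 0) :
    S.sv (S.c1 g) ∈ N I (x + t • Pi.single o 1) := by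
  refine (mem_N_of_tendsto S.smooth (F := nhdsWithin t {t}ᶜ)
    (x := fun τ => x + τ • Pi.single o 1) (φ := fun _ => S.sv (S.c1 g)) (T.ne_zero hl₀ hx hxt)
    ?_ tendsto_const_nhds ?_).2
  · refine Filter.Tendsto.mono_left (Continuous.tendsto ?_ t) nhdsWithin_le_nhds
    fun_prop
  · filter_upwards [eventually_pow_ne (x o) t S.hm] with τ hτ
    refine ⟨T.cyl_mem hx τ, ?_⟩
    have h3 := Submodule.smul_mem _ ((x o + τ) ^ m - x o ^ m)⁻¹ (T.dif_mem hx τ)
    rwa [smul_smul, inv_mul_cancel₀ hτ, one_smul] at h3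

variable (S)

/-- the differentials of the equations are independent on the tangent space at the centre -/
theorem indep_tangent (hn : 4 * r ≤ Fintype.card ι) {x₁ : ι → ℂ} (hx0 : x₁ ≠ 0)
    (hx : ∀ l, S.s l ⬝ᵥ x₁ = 0) (hGx : ∀ l, eval x₁ (S.b l) = 0) :
    LinearIndependent ℂ (fun l => dif (S.G l) x₁) := by
  by_contra hcon
  obtain ⟨g, hg, l₀, hl₀⟩ := Fintype.not_linearIndependent_iff.1 hcon
  -- some coefficient of the second kind is not zero
  obtain ⟨l₁, hl₁⟩ : ∃ l, S.c1 g l ≠ 0 := by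
    by_contra h
    push Not at h
    have h1 : S.c1 g = 0 := funext h
    have h2 : S.c0 g = g := by
      have := S.c0_add_c1 g
      rwa [h1, add_zero] at this
    have h3 := S.dif_comb_zero g hx
    rw [h2, dif_comb, hg] at h3
    exact hl₀ (Fintype.linearIndependent_iff.1 S.hli g h3.symm l₀)
  obtain ⟨y, hy, hsy⟩ := S.exists_sv_ne hl₁
  obtain ⟨T, hdim⟩ := S.exists_tan hx0 hx hGx hg
  have hzak := zakStar S.smooth (cyl_prime T.hP) (cyl_homogeneous T.hP T.hPh)
    (addL LinearMap.id (Pi.single o 1)) (s := S.sv (S.c1 g)) (y := y) (fun v hv hv0 => by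
      rw [mem_cone_cyl] at hv
      have hv' : (fun k => v (some k)) ≠ 0 ∨ v none ≠ 0 := by
        by_contra hcon
        push Not at hcon
        apply hv0
        funext a
        rcases a with _ | k
        · exact hcon.2
        · exact congrFun hcon.1 k
      rw [addL_apply, LinearMap.id_apply]
      exact ⟨T.ne_zero hl₁ hv hv', T.cyl_mem hv _, T.sv_mem hl₁ hv hv'⟩) hy hsy
  rw [dim_cyl] at hzak
  have h1 : (Fintype.card ι : WithBot ℕ∞) + 1 ≤ (r : WithBot ℕ∞) + (3 * r : ℕ) := by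
    calc (Fintype.card ι : WithBot ℕ∞) + 1
        ≤ ringKrullDim (MvPolynomial ι ℂ ⧸ T.P) + (3 * r : ℕ) + 1 := add_le_add_left hdim 1
      _ = (ringKrullDim (MvPolynomial ι ℂ ⧸ T.P) + 1) + (3 * r : ℕ) := by
          rw [add_assoc, add_assoc, add_comm ((3 * r : ℕ) : WithBot ℕ∞) 1]
      _ ≤ _ := add_le_add_left hzak _
  have h2 : Fintype.card ι + 1 ≤ r + 3 * r := by exact_mod_cast h1
  omega

end Gal

end Pool.Agent.H25.Hart
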