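import Pool.Agent.H25.Hart.Setup

/-!
# Varieties of small codimension with a homology whose centre lies on the variety

Let `X ⊂ P^n` be nonsingular, irreducible, closed, of codimension `r`, and let `m ≥ 1`.  Suppose
that `X` is mapped into itself by `(x₀ : x₁ : … : xₙ) ↦ (ζ x₀ : x₁ : … : xₙ)`, `ζ` a primitive
`m`-th root of unity, that the centre `e₀ = (1 : 0 : … : 0)` lies on `X`, and that the differentials
at `e₀` of the forms of degree `≤ 2 m` vanishing on `X` span the conormal space of `X` at `e₀`.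
If `n + 1 ≥ 4 r`, then `X` is the transversal intersection of `r` hypersurfaces, each of degree
`1` or `m + 1`.
-/

open MvPolynomial

namespace Pool.Agent.H25.Hart.HomologyCentre

/-- The affine cone over the projective zero set of `I`: the common zeros of all `f ∈ I`. -/
def Cone {n : ℕ} (I : Ideal (MvPolynomial (Fin (n + 1)) ℂ)) : Set (Fin (n + 1) → ℂ) :=
  {x | ∀ f ∈ I, eval x f = 0}

/-- The differential of `f` at `x`, as the vector of its partial derivatives. -/
noncomputable def grad {n : ℕ} (f : MvPolynomial (Fin (n + 1)) ℂ) (x : Fin (n + 1) → ℂ) :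
    Fin (n + 1) → ℂ := fun i => eval x (pderiv i f)

/-- `I` is the homogeneous ideal of a nonsingular irreducible closed subvariety of `P^n` of
codimension `r`: a homogeneous prime ideal with `dim ℂ[x₀,…,xₙ]/I = n + 1 - r` whose elements have,
at every nonzero point of the cone, differentials spanning an `r`-dimensional space. -/
structure IsNonsingularVariety (n r : ℕ) (I : Ideal (MvPolynomial (Fin (n + 1)) ℂ)) : Prop where
  prime : I.IsPrime
  homogeneous : ∀ f ∈ I, ∀ d, homogeneousComponent d f ∈ I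
  dim : ringKrullDim (MvPolynomial (Fin (n + 1)) ℂ ⧸ I) + r = n + 1
  nonsingular : ∀ x ∈ Cone I, x ≠ 0 →
    Module.finrank ℂ (Submodule.span ℂ {v | ∃ f ∈ I, grad f x = v}) = r

theorem homologyCentre (n r m : ℕ) (I : Ideal (MvPolynomial (Fin (n + 1)) ℂ))
    (hX : IsNonsingularVariety n r I) (hn : 4 * r ≤ n + 1)
    -- the homology `x₀ ↦ ζ x₀` of order `m` maps the variety into itself
    (hm : 1 ≤ m) (ζ : ℂ) (hζ : IsPrimitiveRoot ζ m)
    (hsymm : ∀ x ∈ Cone I, Function.update x 0 (ζ * x 0) ∈ Cone I)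
    -- its centre lies on the variety
    (hcentre : (Pi.single 0 1 : Fin (n + 1) → ℂ) ∈ Cone I)
    -- the forms of degree `≤ 2 m` in the ideal span the conormal space at the centre
    (hdeg : Module.finrank ℂ (Submodule.span ℂ
      {v | ∃ f ∈ I, (∃ d ≤ 2 * m, f.IsHomogeneous d) ∧ grad f (Pi.single 0 1) = v}) = r) :
    ∃ F : Fin r → MvPolynomial (Fin (n + 1)) ℂ,
      (∀ i, (F i).IsHomogeneous 1 ∨ (F i).IsHomogeneous (m + 1)) ∧
      Cone I = {x | ∀ i, eval x (F i) = 0} ∧
      ∀ x ∈ Cone I, x ≠ 0 → LinearIndependent ℂ (fun i => grad (F i) x) := by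
  have hN : ∀ x, Submodule.span ℂ {v | ∃ f ∈ I, grad f x = v} = H89.Hart.N I x := by
    intro x
    apply le_antisymm
    · rw [Submodule.span_le]
      rintro v ⟨f, hf, rfl⟩
      exact H89.Hart.mem_N.2 ⟨f, hf, rfl⟩
    · intro v hv
      obtain ⟨f, hf, rfl⟩ := H89.Hart.mem_N.1 hv
      exact Submodule.subset_span ⟨f, hf, rfl⟩
  have hS : H89.Hart.Smooth I r :=
    { prime := hX.prime
      homog := hX.homogeneous
      rank := fun x hx hx0 => by rw [← hN]; exact hX.nonsingular x hx hx0 }
  obtain ⟨F, hF, hF1, hF2⟩ := Pool.Agent.H25.Hart.main hS hm hζ hsymm hcentre hdeg.ge hn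
  exact ⟨F, hF, Set.ext hF1, hF2⟩

end Pool.Agent.H25.Hart.HomologyCentre
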