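import Mathlib

/-! A bound for the exponent of a finite quotient of lattices. -/

namespace Pool.Agent.H25.Hart

open Finset

theorem abs_det_le {s : ℕ} (A : Matrix (Fin s) (Fin s) ℤ) : |A.det| ≤ ∏ k, ∑ l, |A k l| := by
  rw [← Matrix.det_transpose, Matrix.det_apply]
  refine (Finset.abs_sum_le_sum_abs _ _).trans ?_
  rw [Finset.prod_univ_sum]
  have h1 : ∀ σ : Equiv.Perm (Fin s), |Equiv.Perm.sign σ • ∏ i, A.transpose (σ i) i| =
      ∏ i, |A i (σ i)| := by
    intro σ
    rw [Units.smul_def, smul_eq_mul, abs_mul, Finset.abs_prod]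
    have : |((Equiv.Perm.sign σ : ℤˣ) : ℤ)| = 1 := by
      rcases Int.units_eq_one_or (Equiv.Perm.sign σ) with h | h <;> simp [h]
    rw [this, one_mul]
    rfl
  simp only [h1]
  have h2 : ∑ σ : Equiv.Perm (Fin s), ∏ i, |A i (σ i)| =
      ∑ p ∈ (Finset.univ.map ⟨fun σ : Equiv.Perm (Fin s) => (σ : Fin s → Fin s),
        fun _ _ h => Equiv.coe_fn_injective h⟩), ∏ i, |A i (p i)| := by
    rw [Finset.sum_map]
    rfl
  rw [h2]
  apply Finset.sum_le_sum_of_subset_of_nonneg
  · intro p _
    simp
  · intro p _ _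
    exact Finset.prod_nonneg fun i _ => abs_nonneg _

theorem exists_minor {s : ℕ} {ι : Type*} [Fintype ι] (c : Fin s → ι → ℚ)
    (hc : LinearIndependent ℚ c) :
    ∃ j : Fin s → ι, (Matrix.of fun k l => c k (j l)).det ≠ 0 := by
  classical
  let M : Matrix (Fin s) ι ℚ := Matrix.of c
  have hr : M.rank = s := by
    have h1 : LinearIndependent ℚ M.row := hc
    rw [h1.rank_matrix, Fintype.card_fin]
  rw [Matrix.rank_eq_finrank_span_cols] at hr
  obtain ⟨f, hf, -, hli⟩ := Submodule.exists_fun_fin_finrank_span_eq ℚ (Set.range M.col)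
  choose j hj using hf
  let e : Fin s ≃ Fin (Module.finrank ℚ (Submodule.span ℚ (Set.range M.col))) := finCongr hr.symm
  refine ⟨fun l => j (e l), ?_⟩
  have h1 : LinearIndependent ℚ (Matrix.of fun k l => c k (j (e l))).col := by
    have h2 : (Matrix.of fun k l => c k (j (e l))).col = f ∘ e := by
      funext l
      rw [Function.comp, ← hj]
      rfl
    rw [h2]
    exact hli.comp e e.injective
  rw [Matrix.linearIndependent_cols_iff_isUnit, Matrix.isUnit_iff_isUnit_det] at h1
  exact h1.ne_zero

theorem exponent_core {s : ℕ} {ι : Type*} [Fintype ι] (c : Fin s → ι → ℤ)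
    (hli : LinearIndependent ℚ (fun (k : Fin s) (i : ι) => (c k i : ℚ))) :
    ∃ N : ℕ, 1 ≤ N ∧ (N : ℤ) ≤ ∏ k, ∑ i, |c k i| ∧
      ∀ v : ι → ℤ, (fun i => (v i : ℚ)) ∈
        Submodule.span ℚ (Set.range (fun (k : Fin s) (i : ι) => (c k i : ℚ))) →
        (N : ℤ) • v ∈ AddSubgroup.closure (Set.range c) := by
  classical
  obtain ⟨j, hj⟩ := exists_minor _ hli
  let A : Matrix (Fin s) (Fin s) ℤ := Matrix.of fun k l => c k (j l)
  have hAkl : ∀ k l, A k l = c k (j l) := fun _ _ => rfl
  have hA : (Matrix.of fun k l => (c k (j l) : ℚ)) = A.map (Int.castRingHom ℚ) := by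
    ext k l
    simp [A]
  have hAdet : A.det ≠ 0 := by
    intro h
    apply hj
    rw [hA]
    have := RingHom.map_det (Int.castRingHom ℚ) A
    rw [h, map_zero] at this
    exact this.symm
  have hjinj : Function.Injective j := by
    intro l l' h
    by_contra hne
    apply hAdet
    apply Matrix.det_zero_of_column_eq hne
    intro k
    rw [hAkl, hAkl, h]
  refine ⟨A.det.natAbs, Int.natAbs_pos.2 hAdet, ?_, ?_⟩
  · rw [Int.natCast_natAbs]
    refine (abs_det_le A).trans ?_
    refine Finset.prod_le_prod (fun k _ => Finset.sum_nonneg fun l _ => abs_nonneg _) fun k _ => ?_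
    have h2 : ∑ l, |A k l| = ∑ i ∈ Finset.univ.map ⟨j, hjinj⟩, |c k i| := by
      rw [Finset.sum_map]
      rfl
    rw [h2]
    exact Finset.sum_le_sum_of_subset_of_nonneg (Finset.subset_univ _) fun i _ _ => abs_nonneg _
  · intro v hv
    rw [Submodule.mem_span_range_iff_exists_fun] at hv
    obtain ⟨q, hq⟩ := hv
    have hq' : ∀ i, ∑ k, q k * (c k i : ℚ) = v i := by
      intro i
      have := congrFun hq i
      simpa only [Finset.sum_apply, Pi.smul_apply, smul_eq_mul] using this
    -- the coefficients become integral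
    have hz : ∀ k, ∃ z : ℤ, (z : ℚ) = A.det * q k := by
      intro k
      refine ⟨∑ l, v (j l) * A.adjugate l k, ?_⟩
      have h2 : ∀ k', ∑ l, (c k' (j l) : ℚ) * (A.adjugate l k : ℚ) =
          if k' = k then (A.det : ℚ) else 0 := by
        intro k'
        have h3 := congrFun (congrFun (Matrix.mul_adjugate A) k') k
        rw [Matrix.mul_apply, Matrix.smul_apply, Matrix.one_apply, smul_eq_mul, mul_ite, mul_one,
          mul_zero] at h3
        have h5 : ((∑ l, A k' l * A.adjugate l k : ℤ) : ℚ) =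
            ((if k' = k then A.det else 0 : ℤ) : ℚ) := by rw [h3]
        rw [Int.cast_sum] at h5
        simp only [Int.cast_mul, hAkl] at h5
        rw [h5]
        split_ifs <;> simp
      rw [Int.cast_sum]
      calc ∑ l, ((v (j l) * A.adjugate l k : ℤ) : ℚ)
          = ∑ l, ∑ k', q k' * ((c k' (j l) : ℚ) * (A.adjugate l k : ℚ)) := by
            refine Finset.sum_congr rfl fun l _ => ?_
            rw [Int.cast_mul, ← hq', Finset.sum_mul]
            refine Finset.sum_congr rfl fun k' _ => ?_
            ring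
        _ = ∑ k', q k' * ∑ l, (c k' (j l) : ℚ) * (A.adjugate l k : ℚ) := by
            rw [Finset.sum_comm]
            refine Finset.sum_congr rfl fun k' _ => ?_
            rw [Finset.mul_sum]
        _ = _ := by
            simp only [h2, mul_ite, mul_zero, Finset.sum_ite_eq', Finset.mem_univ, if_true]
            ring
    choose z hz using hz
    have h1 : A.det • v = ∑ k, z k • c k := by
      funext i
      have h3 : ((A.det * v i : ℤ) : ℚ) = ((∑ k, z k * c k i : ℤ) : ℚ) := by
        rw [Int.cast_mul, Int.cast_sum, ← hq', Finset.mul_sum]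
        refine Finset.sum_congr rfl fun k _ => ?_
        rw [Int.cast_mul, hz]
        ring
      have h4 : A.det * v i = ∑ k, z k * c k i := Int.cast_injective h3
      simp only [Pi.smul_apply, smul_eq_mul, Finset.sum_apply]
      exact h4
    have h2 : A.det • v ∈ AddSubgroup.closure (Set.range c) := by
      rw [h1]
      exact AddSubgroup.sum_mem _ fun k _ =>
        AddSubgroup.zsmul_mem _ (AddSubgroup.subset_closure (Set.mem_range_self k)) _
    rcases Int.natAbs_eq A.det with h | h
    · rwa [← h]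
    · have h3 : ((A.det.natAbs : ℤ)) • v = -(A.det • v) := by
        conv_rhs => rw [h]
        rw [neg_smul, neg_neg]
      rw [h3]
      exact neg_mem h2

/-- If `R` is a set of integral vectors with coordinate sum `0` and `∑ |u i| ≤ B`, there is a
number `N ≤ B ^ (card ι - 1)` such that `N v` is an integral combination of `R` for every integral
vector `v` in the rational span of `R`. -/
theorem exists_exponent {ι : Type*} [Fintype ι] [Nonempty ι] (R : Set (ι → ℤ)) (B : ℕ) (hB : 1 ≤ B)
    (hsum : ∀ u ∈ R, ∑ i, u i = 0) (hR : ∀ u ∈ R, ∑ i, |u i| ≤ B) :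
    ∃ N : ℕ, 1 ≤ N ∧ N ≤ B ^ (Fintype.card ι - 1) ∧
      ∀ v : ι → ℤ, (fun i => (v i : ℚ)) ∈
        Submodule.span ℚ ((fun (u : ι → ℤ) (i : ι) => (u i : ℚ)) '' R) →
        (N : ℤ) • v ∈ AddSubgroup.closure R := by
  classical
  obtain ⟨f, hf, hspan, hli⟩ := Submodule.exists_fun_fin_finrank_span_eq ℚ
    ((fun (u : ι → ℤ) (i : ι) => (u i : ℚ)) '' R)
  choose c hcR hcf using hf
  obtain rfl : (fun k i => (c k i : ℚ)) = f := funext fun k => hcf k
  obtain ⟨N, hN1, hN2, hN3⟩ := exponent_core c hli
  refine ⟨N, hN1, ?_, ?_⟩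
  · have hsle : Module.finrank ℚ (Submodule.span ℚ
        ((fun (u : ι → ℤ) (i : ι) => (u i : ℚ)) '' R)) ≤ Fintype.card ι - 1 := by
      let φ : (ι → ℚ) →ₗ[ℚ] ℚ := ∑ i, LinearMap.proj i
      have hφ : ∀ v, φ v = ∑ i, v i := fun v => by simp [φ]
      have h1 : Submodule.span ℚ ((fun (u : ι → ℤ) (i : ι) => (u i : ℚ)) '' R) ≤
          LinearMap.ker φ := by
        rw [Submodule.span_le]
        rintro _ ⟨u, hu, rfl⟩
        rw [SetLike.mem_coe, LinearMap.mem_ker, hφ, ← Int.cast_sum, hsum u hu, Int.cast_zero]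
      have h2 := Submodule.finrank_mono h1
      have h3 : Module.finrank ℚ (LinearMap.ker φ) + 1 = Fintype.card ι := by
        have h4 := LinearMap.finrank_range_add_finrank_ker φ
        rw [Module.finrank_fintype_fun_eq_card] at h4
        have h5 : LinearMap.range φ = ⊤ := by
          rw [LinearMap.range_eq_top]
          intro y
          obtain ⟨i⟩ := ‹Nonempty ι›
          refine ⟨Pi.single i y, ?_⟩
          rw [hφ]
          simp
        rw [h5, finrank_top, Module.finrank_self] at h4
        omega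
      omega
    have h1 : (N : ℤ) ≤ (B : ℤ) ^ (Module.finrank ℚ (Submodule.span ℚ
        ((fun (u : ι → ℤ) (i : ι) => (u i : ℚ)) '' R))) := by
      refine hN2.trans ((Finset.prod_le_prod (fun k _ => Finset.sum_nonneg fun l _ =>
        abs_nonneg _) fun k _ => hR (c k) (hcR k)).trans (le_of_eq ?_))
      rw [Finset.prod_const, Finset.card_univ, Fintype.card_fin]
    have h2 : N ≤ B ^ (Module.finrank ℚ (Submodule.span ℚ
        ((fun (u : ι → ℤ) (i : ι) => (u i : ℚ)) '' R))) := by exact_mod_cast h1
    exact h2.trans (Nat.pow_le_pow_right hB hsle)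
  · intro v hv
    rw [← hspan] at hv
    refine AddSubgroup.closure_mono ?_ (hN3 v hv)
    rintro _ ⟨k, rfl⟩
    exact hcR k

end Pool.Agent.H25.Hart
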