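import Pool.Agent.H25.Hart.Minor
import Pool.Agent.H89.Hart.Final

/-! Diagonalizable automorphisms of large order. -/

open MvPolynomial

set_option linter.unusedSectionVars false
set_option linter.unusedSimpArgs false

namespace Pool.Agent.H25.Hart

open H89.Hart

variable {ι : Type*} [Fintype ι] [DecidableEq ι]

/-- If `F` vanishes on the orbit of `y` under a diagonal matrix `a`, it vanishes on the orbit
under every one-parameter group whose weights respect the relations of `a` between the
monomials of `F`. -/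
theorem eval_act_zero' (F : MvPolynomial ι ℂ) (y a : ι → ℂ)
    (h : ∀ k : ℕ, eval (fun i => a i ^ k * y i) F = 0) (w : ι → ℤ)
    (hw : ∀ m ∈ F.support, ∀ m' ∈ F.support, ∏ i, a i ^ m i = ∏ i, a i ^ m' i →
      ∑ i, (m i : ℤ) * w i = ∑ i, (m' i : ℤ) * w i) {t : ℂ} (ht : t ≠ 0) :
    eval (fun i => t ^ w i * y i) F = 0 := by
  classical
  let val : (ι →₀ ℕ) → ℂ := fun m => ∏ i, a i ^ m i
  let T : Finset ℂ := F.support.image val
  let c : ℂ → ℂ := fun χ => ∑ m ∈ F.support.filter (fun m => val m = χ),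
    coeff m F * ∏ i, y i ^ m i
  have h1 : ∀ k : ℕ, ∑ χ ∈ T, χ ^ k * c χ = 0 := by
    intro k
    rw [← h k, eval_eq']
    rw [← Finset.sum_fiberwise_of_maps_to (g := val) (t := T)
      (fun m hm => Finset.mem_image_of_mem _ hm)]
    refine Finset.sum_congr rfl fun χ _ => ?_
    rw [Finset.mul_sum]
    refine Finset.sum_congr rfl fun m hm => ?_
    have hval : val m = χ := (Finset.mem_filter.1 hm).2
    have : ∏ i, (a i ^ k * y i) ^ m i = χ ^ k * ∏ i, y i ^ m i := by
      rw [← hval]
      simp only [val, mul_pow, Finset.prod_mul_distrib, ← Finset.prod_pow]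
      congr 1
      refine Finset.prod_congr rfl fun i _ => ?_
      rw [← pow_mul, ← pow_mul, mul_comm]
    rw [this]; ring
  have h2 := vandermonde_zero T c h1
  rw [eval_eq', ← Finset.sum_fiberwise_of_maps_to (g := val) (t := T)
      (fun m hm => Finset.mem_image_of_mem _ hm)]
  apply Finset.sum_eq_zero
  intro χ hχ
  obtain ⟨m₀, hm₀, hm₀χ⟩ := Finset.mem_image.1 hχ
  have h3 : ∀ m ∈ F.support.filter (fun m => val m = χ),
      coeff m F * ∏ i, (t ^ w i * y i) ^ m i =
      t ^ (∑ i, (m₀ i : ℤ) * w i) * (coeff m F * ∏ i, y i ^ m i) := by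
    intro m hm
    have hval : val m = χ := (Finset.mem_filter.1 hm).2
    have h4 := hw m (Finset.mem_filter.1 hm).1 m₀ hm₀ (hval.trans hm₀χ.symm)
    rw [← h4]
    have : ∏ i, (t ^ w i * y i) ^ m i = t ^ (∑ i, (m i : ℤ) * w i) * ∏ i, y i ^ m i := by
      simp only [mul_pow, Finset.prod_mul_distrib]
      congr 1
      have h5 : ∀ s : Finset ι, ∏ i ∈ s, (t ^ w i) ^ m i = t ^ ∑ i ∈ s, (m i : ℤ) * w i := by
        intro s
        induction s using Finset.induction_on with
        | empty => simp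
        | insert b s hb ih =>
          rw [Finset.prod_insert hb, Finset.sum_insert hb, ih, zpow_add₀ ht]
          congr 1
          rw [mul_comm, zpow_mul, zpow_natCast]
      exact h5 _
    rw [this]; ring
  rw [Finset.sum_congr rfl h3, ← Finset.mul_sum]
  have h6 := h2 χ hχ
  change ∑ m ∈ F.support.filter (fun m => val m = χ), coeff m F * ∏ i, y i ^ m i = 0 at h6
  rw [h6, mul_zero]

/-- The relations of bounded length between the `a i`. -/
def rel (a : ι → ℂ) (B : ℕ) : Set (ι → ℤ) :=
  {u | ∑ i, u i = 0 ∧ ∑ i, |u i| ≤ B ∧ ∏ i, a i ^ u i = 1}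

theorem prod_closure {a : ι → ℂ} (ha : ∀ i, a i ≠ 0) {B : ℕ} {u : ι → ℤ}
    (hu : u ∈ AddSubgroup.closure (rel a B)) : ∏ i, a i ^ u i = 1 := by
  induction hu using AddSubgroup.closure_induction with
  | mem u hu => exact hu.2.2
  | zero => simp
  | add u v _ _ hu hv =>
    simp only [Pi.add_apply]
    rw [Finset.prod_congr rfl fun i _ => zpow_add₀ (ha i) (u i) (v i), Finset.prod_mul_distrib,
      hu, hv, one_mul]
  | neg u _ hu =>
    simp only [Pi.neg_apply, zpow_neg, Finset.prod_inv_distrib, hu, inv_one]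

theorem exists_weights' (a : ι → ℂ) (B : ℕ) {i j : ι}
    (hnot : (Pi.single i 1 - Pi.single j 1 : ι → ℚ) ∉
      Submodule.span ℚ ((fun (u : ι → ℤ) (i : ι) => (u i : ℚ)) '' rel a B)) :
    ∃ w : ι → ℤ, w i ≠ w j ∧ ∀ u ∈ rel a B, ∑ i, u i * w i = 0 := by
  obtain ⟨f, hf, hle⟩ := Submodule.exists_le_ker_of_notMem hnot
  let d : ℤ := ∏ k, ((f (Pi.single k 1)).den : ℤ)
  have hd : d ≠ 0 := Finset.prod_ne_zero_iff.2 fun k _ => by
    have := (f (Pi.single k 1)).den_pos; positivity
  have hint : ∀ k, ∃ z : ℤ, (z : ℚ) = d * f (Pi.single k 1) := by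
    intro k
    obtain ⟨e, he⟩ : ((f (Pi.single k 1)).den : ℤ) ∣ d :=
      Finset.dvd_prod_of_mem _ (Finset.mem_univ k)
    refine ⟨e * (f (Pi.single k 1)).num, ?_⟩
    rw [he]
    push_cast
    have : (f (Pi.single k 1)) * ((f (Pi.single k 1)).den : ℚ) = (f (Pi.single k 1)).num :=
      Rat.mul_den_eq_num _
    rw [← this]; ring
  choose w hw using hint
  have hf' : ∀ v : ι → ℚ, f v = ∑ k, v k * f (Pi.single k 1) := by
    intro v
    have : v = ∑ k, v k • (Pi.single k (1 : ℚ) : ι → ℚ) := by
      funext m; simp [Finset.sum_apply, Pi.single_apply]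
    conv_lhs => rw [this, map_sum]
    simp
  refine ⟨w, ?_, ?_⟩
  · intro h
    apply hf
    rw [map_sub]
    have h1 : (d : ℚ) * f (Pi.single i 1) = d * f (Pi.single j 1) := by rw [← hw, ← hw, h]
    have h2 : (d : ℚ) ≠ 0 := by exact_mod_cast hd
    rw [mul_left_cancel₀ h2 h1, sub_self]
  · intro u hu
    have hmem : (fun k => (u k : ℚ)) ∈
        Submodule.span ℚ ((fun (u : ι → ℤ) (i : ι) => (u i : ℚ)) '' rel a B) :=
      Submodule.subset_span ⟨u, hu, rfl⟩
    have h1 := LinearMap.mem_ker.1 (hle hmem)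
    rw [hf'] at h1
    have h2 : ((∑ k, u k * w k : ℤ) : ℚ) = 0 := by
      push_cast
      have : (d : ℚ) * ∑ k, (u k : ℚ) * f (Pi.single k 1) = 0 := by rw [h1, mul_zero]
      rw [← this, Finset.mul_sum]
      refine Finset.sum_congr rfl fun k _ => ?_
      rw [hw]; ring
    exact_mod_cast h2

/-- the theorem for one diagonalizable automorphism of large order. -/
theorem main_order (n r d : ℕ) (I : Ideal (MvPolynomial (Fin (n + 1)) ℂ)) (hI : Smooth I r)
    (hdim : ringKrullDim (MvPolynomial (Fin (n + 1)) ℂ ⧸ I) + r = n + 1) (hd : 1 ≤ d)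
    (hcut : ∀ x, (∀ f ∈ I, ∀ e ≤ d, f.IsHomogeneous e → eval x f = 0) → x ∈ cone I)
    (A : (Fin (n + 1) → ℂ) ≃ₗ[ℂ] (Fin (n + 1) → ℂ)) (a : Fin (n + 1) → ℂ) (ha : ∀ i, a i ≠ 0)
    (hstab : ∀ x ∈ cone I, A (fun i => a i * A.symm x i) ∈ cone I)
    (hmove : ∀ m : ℕ, 0 < m → m ≤ (2 * d) ^ n →
      ∃ x ∈ cone I, ∀ c : ℂ, A (fun i => a i ^ m * A.symm x i) ≠ c • x)
    (hn : 23 * r < n + 1) :
    ∃ F : Fin r → MvPolynomial (Fin (n + 1)) ℂ, ∃ d : Fin r → ℕ,
      (∀ i, (F i).IsHomogeneous (d i)) ∧ (∀ i, d i = 1 ∨ d i = 2) ∧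
      (∀ i j, d i = 2 → d j = 2 → i = j) ∧ I = Ideal.span (Set.range F) ∧
      ∀ x ∈ cone I, x ≠ 0 → LinearIndependent ℂ (fun i => dif (F i) x) := by
  classical
  obtain ⟨m, hm, hmle, hmv⟩ := exists_exponent (rel a (2 * d)) (2 * d) (by omega)
    (fun u hu => hu.1) (fun u hu => hu.2.1)
  rw [Fintype.card_fin, Nat.add_sub_cancel] at hmle
  obtain ⟨x, hx, hxm⟩ := hmove m hm hmle
  set y := A.symm x with hy
  obtain ⟨i, j, hi, hj, hij⟩ : ∃ i j, y i ≠ 0 ∧ y j ≠ 0 ∧ a i ^ m ≠ a j ^ m := by
    by_contra hcon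
    push Not at hcon
    by_cases hy0 : y = 0
    · apply hxm 0
      rw [hy0]
      have h1 : (fun i => a i ^ m * (0 : Fin (n + 1) → ℂ) i) = 0 := by funext i; simp
      rw [h1, map_zero, zero_smul]
    · obtain ⟨i, hi⟩ : ∃ i, y i ≠ 0 := by
        by_contra hc; push Not at hc; exact hy0 (funext hc)
      apply hxm (a i ^ m)
      have h1 : (fun k => a k ^ m * y k) = a i ^ m • y := by
        funext k
        rw [Pi.smul_apply, smul_eq_mul]
        by_cases hk : y k = 0
        · rw [hk, mul_zero, mul_zero]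
        · rw [hcon k i hk hi]
      rw [h1, map_smul, hy, A.apply_symm_apply]
  have hne : i ≠ j := by rintro rfl; exact hij rfl
  have hnot : (Pi.single i 1 - Pi.single j 1 : Fin (n + 1) → ℚ) ∉
      Submodule.span ℚ ((fun (u : Fin (n + 1) → ℤ) (i : Fin (n + 1)) => (u i : ℚ)) ''
        rel a (2 * d)) := by
    intro hmem
    have h0 : (fun k => (((Pi.single i 1 - Pi.single j 1 : Fin (n + 1) → ℤ) k : ℤ) : ℚ)) =
        (Pi.single i 1 - Pi.single j 1 : Fin (n + 1) → ℚ) := by
      funext k
      simp only [Pi.sub_apply, Pi.single_apply]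
      split_ifs <;> simp
    have h1 := prod_closure ha (hmv (Pi.single i 1 - Pi.single j 1) (by rw [h0]; exact hmem))
    have h2 : ∏ k, a k ^ ((m : ℤ) • (Pi.single i 1 - Pi.single j 1 : Fin (n + 1) → ℤ)) k =
        a i ^ m * (a j ^ m)⁻¹ := by
      rw [← Finset.prod_subset (Finset.subset_univ ({i, j} : Finset (Fin (n + 1))))]
      · rw [Finset.prod_pair hne]
        simp only [Pi.smul_apply, Pi.sub_apply, Pi.single_eq_same, Pi.single_eq_of_ne hne,
          Pi.single_eq_of_ne hne.symm, smul_eq_mul]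
        rw [sub_zero, mul_one, zero_sub, mul_neg, mul_one, zpow_neg, zpow_natCast, zpow_natCast]
      · intro k _ hk
        simp only [Finset.mem_insert, Finset.mem_singleton, not_or] at hk
        simp [Pi.single_apply, hk.1, hk.2]
    rw [h2] at h1
    exact hij ((mul_inv_eq_one₀ (pow_ne_zero m (ha j))).1 h1)
  obtain ⟨w, hwij, hw⟩ := exists_weights' a (2 * d) hnot
  refine reduction2 n r I hI hdim A w ?_ ?_ hn
  · intro t ht z hz
    apply hcut
    intro f hf e he hfe
    have hk : ∀ k : ℕ, A (fun i => a i ^ k * A.symm z i) ∈ cone I := by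
      intro k
      induction k with
      | zero => simpa using hz
      | succ k ih =>
        have := hstab _ ih
        rw [A.symm_apply_apply] at this
        have e : (fun i => a i * (a i ^ k * A.symm z i)) = fun i => a i ^ (k + 1) * A.symm z i := by
          funext i; ring
        rwa [e] at this
    have hFe : (H15.Hart.sub A.toLinearMap f).IsHomogeneous e := H15.Hart.sub_homog _ hfe
    have h1 := eval_act_zero' (H15.Hart.sub A.toLinearMap f) (A.symm z) a (fun k => by
      rw [H15.Hart.eval_sub]; exact hk k f hf) w (fun μ hμ μ' hμ' hprod => by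
        have hdeg : ∀ μ ∈ (H15.Hart.sub A.toLinearMap f).support, ∑ k, μ k = e := by
          intro μ hμ
          have := hFe (mem_support_iff.1 hμ)
          rw [← this, Finsupp.weight_apply, Finsupp.sum_fintype _ _ (by simp)]
          simp
        have hrel : (fun k => (μ k : ℤ) - μ' k) ∈ rel a (2 * d) := by
          refine ⟨?_, ?_, ?_⟩
          · rw [Finset.sum_sub_distrib]
            have h2 := hdeg μ hμ
            have h3 := hdeg μ' hμ'
            have h4 : ∑ k, (μ k : ℤ) = e := by exact_mod_cast h2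
            have h5 : ∑ k, (μ' k : ℤ) = e := by exact_mod_cast h3
            rw [h4, h5, sub_self]
          · have h2 := hdeg μ hμ
            have h3 := hdeg μ' hμ'
            calc ∑ k, |(μ k : ℤ) - μ' k| ≤ ∑ k, ((μ k : ℤ) + μ' k) := by
                  refine Finset.sum_le_sum fun k _ => ?_
                  rw [abs_le]
                  constructor <;> omega
              _ = e + e := by
                  rw [Finset.sum_add_distrib]
                  have h4 : ∑ k, (μ k : ℤ) = e := by exact_mod_cast h2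
                  have h5 : ∑ k, (μ' k : ℤ) = e := by exact_mod_cast h3
                  rw [h4, h5]
              _ ≤ ((2 * d : ℕ) : ℤ) := by push_cast; omega
          · have : ∏ k, a k ^ ((μ k : ℤ) - μ' k) = (∏ k, a k ^ μ k) / ∏ k, a k ^ μ' k := by
              rw [← Finset.prod_div_distrib]
              refine Finset.prod_congr rfl fun k _ => ?_
              rw [zpow_sub₀ (ha k), zpow_natCast, zpow_natCast]
            rw [this, hprod, div_self]
            exact Finset.prod_ne_zero_iff.2 fun k _ => pow_ne_zero _ (ha k)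
        have h6 := hw _ hrel
        simp only [sub_mul, Finset.sum_sub_distrib] at h6
        exact sub_eq_zero.1 h6) ht
    rw [H15.Hart.eval_sub] at h1
    exact h1
  · refine ⟨x, hx, 2, two_ne_zero, fun c hc => hwij ?_⟩
    have h1 : (fun i => (2 : ℂ) ^ w i * y i) = c • y := by
      apply A.injective
      rw [map_smul, hy, A.apply_symm_apply]
      exact hc
    have h2 : (2 : ℂ) ^ w i = c := by
      have := congrFun h1 i
      rw [Pi.smul_apply, smul_eq_mul] at this
      exact mul_right_cancel₀ hi this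
    have h3 : (2 : ℂ) ^ w j = c := by
      have := congrFun h1 j
      rw [Pi.smul_apply, smul_eq_mul] at this
      exact mul_right_cancel₀ hj this
    have h4 : (2 : ℂ) ^ w i = (2 : ℂ) ^ w j := h2.trans h3.symm
    have h5 : ((2 : ℝ) ^ w i) = (2 : ℝ) ^ w j := by
      have := congrArg (fun z : ℂ => z.re) h4
      have e : ∀ n : ℤ, ((2 : ℂ) ^ n) = (((2 : ℝ) ^ n : ℝ) : ℂ) := fun n => by push_cast; rfl
      simp only [e, Complex.ofReal_re] at this
      exact this
    exact zpow_right_injective₀ (by norm_num) (by norm_num) h5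

end Pool.Agent.H25.Hart
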