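import Pool.Agent.H25.Hart.Galois
import Pool.Agent.H18.Sparse.Crit

/-! From the symmetry to the local equations at the centre, and the final statement. -/

open MvPolynomial

set_option linter.unusedSectionVars false

namespace Pool.Agent.H25.Hart

open H89.Hart

variable {n : ℕ}

/-- the coefficient of `x_0 ^ k` -/
noncomputable def cf (F : MvPolynomial (Fin (n + 1)) ℂ) (k : ℕ) : MvPolynomial (Fin (n + 1)) ℂ :=
  rename Fin.succ ((finSuccEquiv ℂ n F).coeff k)

theorem cf_homog {F : MvPolynomial (Fin (n + 1)) ℂ} {d k : ℕ} (hF : F.IsHomogeneous d)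
    (hk : k ≤ d) : (cf F k).IsHomogeneous (d - k) :=
  (hF.finSuccEquiv_coeff_isHomogeneous k (d - k) (by omega)).rename_isHomogeneous

theorem eval_cf_add (F : MvPolynomial (Fin (n + 1)) ℂ) (k : ℕ) (x : Fin (n + 1) → ℂ) (t : ℂ) :
    eval (x + t • Pi.single 0 1) (cf F k) = eval x (cf F k) := by
  rw [cf, eval_rename, eval_rename]
  congr 1
  apply congrArg
  funext j
  simp

theorem eval_cf_update (F : MvPolynomial (Fin (n + 1)) ℂ) (k : ℕ) (x : Fin (n + 1) → ℂ) (t : ℂ) :
    eval (Function.update x 0 t) (cf F k) = eval x (cf F k) := by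
  rw [cf, eval_rename, eval_rename]
  congr 1

theorem eval_eq_cf {F : MvPolynomial (Fin (n + 1)) ℂ} {d : ℕ} (hF : F.IsHomogeneous d)
    (x : Fin (n + 1) → ℂ) :
    eval x F = ∑ k ∈ Finset.range (d + 1), eval x (cf F k) * x 0 ^ k := by
  have h1 : x = Fin.cons (x 0) (fun j => x (Fin.succ j)) := by
    funext j
    refine Fin.cases ?_ (fun j => ?_) j <;> simp
  have h2 : eval x F = Polynomial.eval (x 0)
      (Polynomial.map (eval fun j => x (Fin.succ j)) (finSuccEquiv ℂ n F)) := by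
    conv_lhs => rw [h1]
    rw [eval_eq_eval_mv_eval']
  rw [h2, Polynomial.eval_eq_sum_range' (n := d + 1)]
  · refine Finset.sum_congr rfl fun k _ => ?_
    rw [Polynomial.coeff_map, cf, eval_rename]
    rfl
  · refine lt_of_le_of_lt Polynomial.natDegree_map_le ?_
    rw [natDegree_finSuccEquiv]
    have h3 := degreeOf_le_totalDegree F 0
    have h4 := hF.totalDegree_le
    omega

theorem eq_cf {F : MvPolynomial (Fin (n + 1)) ℂ} {d : ℕ} (hF : F.IsHomogeneous d) :
    F = ∑ k ∈ Finset.range (d + 1), cf F k * X 0 ^ k := by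
  apply MvPolynomial.funext
  intro x
  rw [eval_eq_cf hF, map_sum]
  refine Finset.sum_congr rfl fun k _ => ?_
  simp

/-- powers of the symmetry -/
theorem update_mem {I : Ideal (MvPolynomial (Fin (n + 1)) ℂ)} {ζ : ℂ}
    (hst : ∀ x ∈ cone I, Function.update x 0 (ζ * x 0) ∈ cone I) {x : Fin (n + 1) → ℂ}
    (hx : x ∈ cone I) (j : ℕ) : Function.update x 0 (ζ ^ j * x 0) ∈ cone I := by
  induction j with
  | zero => simpa using hx
  | succ j ih =>
    have := hst _ ih
    rw [Function.update_self, Function.update_idem] at this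
    rwa [pow_succ', mul_assoc]

theorem geom {m : ℕ} {ζ : ℂ} (hζ : IsPrimitiveRoot ζ m) (a : ℕ) :
    ∑ j ∈ Finset.range m, ζ ^ (j * a) = if m ∣ a then (m : ℂ) else 0 := by
  have h1 : ∀ j, ζ ^ (j * a) = (ζ ^ a) ^ j := fun j => by rw [← pow_mul, mul_comm]
  simp only [h1]
  split_ifs with h
  · rw [(hζ.pow_eq_one_iff_dvd a).2 h]
    simp
  · have h2 : ζ ^ a - 1 ≠ 0 := fun h3 => h ((hζ.pow_eq_one_iff_dvd a).1 (sub_eq_zero.1 h3))
    have h3 := geom_sum_mul (ζ ^ a) m
    rw [← pow_mul, mul_comm a m, pow_mul, hζ.pow_eq_one, one_pow, sub_self] at h3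
    exact (mul_eq_zero.1 h3).resolve_right h2

/-- the part of `F` with exponents of `x_0` in one residue class -/
theorem part_mem {I : Ideal (MvPolynomial (Fin (n + 1)) ℂ)} (hI : I.IsPrime) {m : ℕ} {ζ : ℂ}
    (hm : 1 ≤ m) (hζ : IsPrimitiveRoot ζ m)
    (hst : ∀ x ∈ cone I, Function.update x 0 (ζ * x 0) ∈ cone I)
    {F : MvPolynomial (Fin (n + 1)) ℂ} {d : ℕ} (hF : F.IsHomogeneous d) (hFI : F ∈ I) (c : ℕ) :
    ∑ k ∈ (Finset.range (d + 1)).filter (fun k => m ∣ k + c), cf F k * X 0 ^ k ∈ I := by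
  apply mem_of_cone hI
  intro x hx
  have h1 : ∑ j ∈ Finset.range m, ζ ^ (j * c) * eval (Function.update x 0 (ζ ^ j * x 0)) F = 0 :=
    Finset.sum_eq_zero fun j _ => by rw [update_mem hst hx j F hFI, mul_zero]
  have h2 : ∀ j, ζ ^ (j * c) * eval (Function.update x 0 (ζ ^ j * x 0)) F =
      ∑ k ∈ Finset.range (d + 1), ζ ^ (j * (k + c)) * (eval x (cf F k) * x 0 ^ k) := by
    intro j
    rw [eval_eq_cf hF, Finset.mul_sum]
    refine Finset.sum_congr rfl fun k _ => ?_
    rw [eval_cf_update, Function.update_self, mul_pow, ← pow_mul, mul_add, pow_add]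
    ring
  simp only [h2] at h1
  rw [Finset.sum_comm] at h1
  simp only [← Finset.sum_mul, geom hζ, ite_mul, zero_mul] at h1
  rw [← Finset.sum_filter, ← Finset.mul_sum] at h1
  have h3 := (mul_eq_zero.1 h1).resolve_left (Nat.cast_ne_zero.2 (by omega))
  rw [map_sum, ← h3]
  refine Finset.sum_congr rfl fun k _ => ?_
  simp

/-- the differential of a form without `x_0` at the centre -/
theorem dif_cf (F : MvPolynomial (Fin (n + 1)) ℂ) (k : ℕ) :
    dif (cf F k) (Pi.single 0 1) = dif (cf F k) 0 := by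
  have h : ∀ u : Fin (n + 1) → ℂ, dif (cf F k) (Pi.single 0 1) ⬝ᵥ u = dif (cf F k) 0 ⬝ᵥ u := by
    intro u
    rw [← coeff_one_ln, ← coeff_one_ln]
    congr 1
    apply Polynomial.funext
    intro τ
    rw [eval_ln, eval_ln, ← eval_cf_add F k (0 + τ • u) 1, one_smul]
    congr 2
    rw [zero_add]
    exact add_comm _ _
  funext k
  have := h (Pi.single k 1)
  rwa [dotProduct_single, dotProduct_single, mul_one, mul_one] at this

theorem dif_zero_of_homog {f : MvPolynomial (Fin (n + 1)) ℂ} {d : ℕ} (hf : f.IsHomogeneous d)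
    (hd : d ≠ 1) : dif f 0 = 0 := by
  funext k
  have h1 : (pderiv k f).IsHomogeneous (d - 1) := hf.pderiv
  rcases Nat.eq_zero_or_pos d with h0 | h0
  · subst h0
    have h2 : f = C (coeff 0 f) := (totalDegree_eq_zero_iff_eq_C).1 (by
      have := hf.totalDegree_le
      omega)
    rw [dif, h2, pderiv_C]
    simp
  · have h2 := eval_smul_homog h1 0 0
    rw [zero_smul, zero_pow (by omega), zero_mul] at h2
    exact h2

theorem eq_lf_of_homog {f : MvPolynomial (Fin (n + 1)) ℂ} (hf : f.IsHomogeneous 1) :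
    f = lf (dif f 0) := by
  apply MvPolynomial.funext
  intro x
  rw [eval_lf]
  have h1 := hf.sum_X_mul_pderiv
  have h2 := congrArg (eval x) h1
  rw [one_smul, map_sum] at h2
  rw [← h2, dotProduct]
  refine Finset.sum_congr rfl fun i _ => ?_
  have h3 : (pderiv i f).IsHomogeneous 0 := hf.pderiv
  have h4 : pderiv i f = C (coeff 0 (pderiv i f)) := (totalDegree_eq_zero_iff_eq_C).1 (by
      have := h3.totalDegree_le
      omega)
  rw [map_mul, eval_X, dif, mul_comm]
  congr 1
  rw [h4]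
  simp

theorem eval_cf_pt {F : MvPolynomial (Fin (n + 1)) ℂ} {d k : ℕ} (hF : F.IsHomogeneous d)
    (hk : k < d) : eval (Pi.single 0 1) (cf F k) = 0 := by
  have h1 := eval_cf_add F k 0 1
  rw [zero_add, one_smul] at h1
  rw [h1]
  have h2 := eval_smul_homog (cf_homog hF hk.le) 0 0
  rwa [zero_smul, zero_pow (by omega), zero_mul] at h2

theorem cf_top {F : MvPolynomial (Fin (n + 1)) ℂ} {d : ℕ} (hF : F.IsHomogeneous d)
    (hF0 : eval (Pi.single 0 1) F = 0) : cf F d = 0 := by
  have h1 := eval_eq_cf hF (Pi.single 0 1)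
  rw [hF0, Finset.sum_range_succ, Finset.sum_eq_zero, zero_add] at h1
  · have h2 := cf_homog hF le_rfl
    rw [Nat.sub_self] at h2
    have h4 : cf F d = C (coeff 0 (cf F d)) := (totalDegree_eq_zero_iff_eq_C).1 (by
      have := h2.totalDegree_le
      omega)
    rw [h4] at h1 ⊢
    simp at h1
    rw [← h1, C_0]
  · intro k hk
    rw [eval_cf_pt hF (Finset.mem_range.1 hk), zero_mul]

theorem dif_eq_cf {F : MvPolynomial (Fin (n + 1)) ℂ} {d : ℕ} (hF : F.IsHomogeneous (d + 1))
    (hF0 : eval (Pi.single 0 1) F = 0) : dif F (Pi.single 0 1) = dif (cf F d) 0 := by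
  have h1 : ∀ k, k < d + 1 → dif (cf F k * X 0 ^ k) (Pi.single 0 1) = dif (cf F k) 0 := by
    intro k hk
    rw [dif_mul, dif_cf, eval_cf_pt hF hk]
    simp
  conv_lhs => rw [eq_cf hF]
  rw [dif_sum, Finset.sum_range_succ, Finset.sum_range_succ, Finset.sum_eq_zero, zero_add,
    cf_top hF hF0, zero_mul, dif_zero, add_zero]
  · exact h1 d (by omega)
  · intro k hk
    rw [Finset.mem_range] at hk
    rw [h1 k (by omega)]
    exact dif_zero_of_homog (cf_homog hF (by omega)) (by omega)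

/-- the special equations -/
theorem class_mem {I : Ideal (MvPolynomial (Fin (n + 1)) ℂ)} (hI : I.IsPrime) {m : ℕ} {ζ : ℂ}
    (hm : 1 ≤ m) (hζ : IsPrimitiveRoot ζ m)
    (hst : ∀ x ∈ cone I, Function.update x 0 (ζ * x 0) ∈ cone I)
    (ho : (Pi.single 0 1 : Fin (n + 1) → ℂ) ∈ cone I)
    {F : MvPolynomial (Fin (n + 1)) ℂ} {d : ℕ} (hF : F.IsHomogeneous d) (hFI : F ∈ I)
    (hd : d ≤ 2 * m) :
    lf (dif F (Pi.single 0 1)) ∈ I ∨ ∃ b : MvPolynomial (Fin (n + 1)) ℂ,
      b.IsHomogeneous (m + 1) ∧ (∀ (x : Fin (n + 1) → ℂ) (t : ℂ),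
        eval (x + t • Pi.single 0 1) b = eval x b) ∧
      lf (dif F (Pi.single 0 1)) * X 0 ^ m + b ∈ I := by
  have hX : (X 0 : MvPolynomial (Fin (n + 1)) ℂ) ∉ I := by
    intro h
    have := ho _ h
    simp at this
  have hXp : ∀ k, (X 0 : MvPolynomial (Fin (n + 1)) ℂ) ^ k ∉ I := fun k h =>
    hX (hI.mem_of_pow_mem _ h)
  have hF0 := ho F hFI
  rcases d with _ | d
  · left
    have h1 : cf F 0 = 0 := cf_top hF hF0
    have h2 : F = 0 := by
      rw [eq_cf hF]
      simp [h1]
    rw [h2, dif_zero]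
    have : lf (0 : Fin (n + 1) → ℂ) = 0 := by
      apply MvPolynomial.funext
      intro x
      rw [eval_lf]
      simp
    rw [this]
    exact I.zero_mem
  have hs : lf (dif F (Pi.single 0 1)) = cf F d := by
    rw [dif_eq_cf hF hF0]
    refine (eq_lf_of_homog ?_).symm
    have := cf_homog hF (k := d) (by omega)
    rwa [Nat.add_sub_cancel_left] at this
  have hP := part_mem hI hm hζ hst hF hFI ((m - 1) * d)
  have hdiv : ∀ k, k ≤ d → (m ∣ k + (m - 1) * d ↔ m ∣ d - k) := by
    intro k hk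
    have h1 : (k + (m - 1) * d) + (d - k) = m * d := by
      obtain ⟨m', rfl⟩ : ∃ m', m = m' + 1 := ⟨m - 1, by omega⟩
      rw [Nat.add_sub_cancel, add_mul, one_mul]
      omega
    constructor
    · intro h
      exact (Nat.dvd_add_right h).1 (h1 ▸ Dvd.intro _ rfl)
    · intro h
      exact (Nat.dvd_add_left h).1 (h1 ▸ Dvd.intro _ rfl)
  rw [Finset.sum_filter, Finset.sum_range_succ, cf_top hF hF0, zero_mul, ite_self, add_zero,
    ← Finset.sum_filter] at hP
  rw [hs]
  by_cases hdm : d < m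
  · left
    have h1 : (Finset.range (d + 1)).filter (fun k => m ∣ k + (m - 1) * d) = {d} := by
      ext k
      rw [Finset.mem_filter, Finset.mem_range, Finset.mem_singleton]
      constructor
      · rintro ⟨h1, h2⟩
        rw [hdiv k (by omega)] at h2
        have := Nat.eq_zero_of_dvd_of_lt h2 (by omega)
        omega
      · rintro rfl
        refine ⟨by omega, ?_⟩
        rw [hdiv k le_rfl, Nat.sub_self]
        exact dvd_zero _
    rw [h1, Finset.sum_singleton] at hP
    exact (hI.mem_or_mem hP).resolve_right (hXp d)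
  · right
    push Not at hdm
    have h1 : (Finset.range (d + 1)).filter (fun k => m ∣ k + (m - 1) * d) = {d, d - m} := by
      ext k
      rw [Finset.mem_filter, Finset.mem_range, Finset.mem_insert, Finset.mem_singleton]
      constructor
      · rintro ⟨h1, h2⟩
        rw [hdiv k (by omega)] at h2
        obtain ⟨c, hc⟩ := h2
        have hc2 : c < 2 := by
          by_contra hcon
          push Not at hcon
          have := Nat.mul_le_mul_left m hcon
          omega
        interval_cases c <;> omega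
      · rintro (rfl | rfl)
        · refine ⟨by omega, ?_⟩
          rw [hdiv k le_rfl, Nat.sub_self]
          exact dvd_zero _
        · refine ⟨by omega, ?_⟩
          rw [hdiv _ (by omega)]
          have : d - (d - m) = m := by omega
          rw [this]
    rw [h1, Finset.sum_pair (by omega)] at hP
    refine ⟨cf F (d - m), ?_, fun x t => eval_cf_add _ _ _ _, ?_⟩
    · have := cf_homog hF (k := d - m) (by omega)
      have h2 : d + 1 - (d - m) = m + 1 := by omega
      rwa [h2] at this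
    · have h3 : cf F d * X 0 ^ d + cf F (d - m) * X 0 ^ (d - m) =
          (cf F d * X 0 ^ m + cf F (d - m)) * X 0 ^ (d - m) := by
        rw [add_mul, mul_assoc, ← pow_add]
        congr 3
        omega
      rw [h3] at hP
      exact (hI.mem_or_mem hP).resolve_right (hXp _)

/-- the local equations at the centre -/
theorem exists_gal {I : Ideal (MvPolynomial (Fin (n + 1)) ℂ)} {r m : ℕ} (hS : Smooth I r)
    (hm : 1 ≤ m) {ζ : ℂ} (hζ : IsPrimitiveRoot ζ m)
    (hst : ∀ x ∈ cone I, Function.update x 0 (ζ * x 0) ∈ cone I)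
    (ho : (Pi.single 0 1 : Fin (n + 1) → ℂ) ∈ cone I)
    (hspan : r ≤ Module.finrank ℂ (Submodule.span ℂ
      {v | ∃ f ∈ I, (∃ d ≤ 2 * m, f.IsHomogeneous d) ∧ dif f (Pi.single 0 1) = v})) :
    Nonempty (Gal I r m 0) := by
  classical
  have hp0 : (Pi.single 0 1 : Fin (n + 1) → ℂ) ≠ 0 := by
    intro h
    have := congrFun h 0
    simp at this
  set B1 : Set (Fin (n + 1) → ℂ) := {v | lf v ∈ I} with hB1
  set T : Set (Fin (n + 1) → ℂ) := {v | v ∈ N I (Pi.single 0 1) ∧ (lf v ∈ I ∨
    ∃ b : MvPolynomial (Fin (n + 1)) ℂ, b.IsHomogeneous (m + 1) ∧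
      (∀ (x : Fin (n + 1) → ℂ) (t : ℂ), eval (x + t • Pi.single 0 1) b = eval x b) ∧
      lf v * X 0 ^ m + b ∈ I)} with hT
  have h1T : B1 ⊆ T := fun v hv => ⟨mem_N.2 ⟨lf v, hv, dif_lf _ _⟩, Or.inl hv⟩
  obtain ⟨B₀, hB₀, -, hsp₀, hli₀⟩ := exists_linearIndepOn_id_extension
    (linearIndepOn_empty ℂ (id : (Fin (n + 1) → ℂ) → _)) (Set.empty_subset B1)
  obtain ⟨B, hBT, hBB, hspB, hliB⟩ := exists_linearIndepOn_id_extension hli₀ (hB₀.trans h1T)
  have hfin : B.Finite := LinearIndependent.setFinite hliB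
  have := hfin.fintype
  have hcard : Fintype.card B = r := by
    have h1 : Module.finrank ℂ (Submodule.span ℂ B) = Fintype.card B := by
      rw [finrank_span_set_eq_card hliB, Set.toFinset_card]
    rw [← h1]
    apply le_antisymm
    · rw [← hS.rank _ ho hp0]
      apply Submodule.finrank_mono
      rw [Submodule.span_le]
      exact fun v hv => (hBT hv).1
    · refine hspan.trans (Submodule.finrank_mono ?_)
      rw [Submodule.span_le]
      rintro v ⟨f, hf, ⟨d, hd, hfd⟩, rfl⟩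
      exact hspB ⟨mem_N.2 ⟨f, hf, rfl⟩, class_mem hS.prime hm hζ hst ho hfd hf hd⟩
  let e : Fin r ≃ B := (Fintype.equivFinOfCardEq hcard).symm
  have hb : ∀ l : Fin r, ∃ b : MvPolynomial (Fin (n + 1)) ℂ,
      (lf (e l : Fin (n + 1) → ℂ) ∈ I → b = 0) ∧
      b.IsHomogeneous ((if lf (e l : Fin (n + 1) → ℂ) ∈ I then 0 else m) + 1) ∧
      (∀ (x : Fin (n + 1) → ℂ) (t : ℂ), eval (x + t • Pi.single 0 1) b = eval x b) ∧
      lf (e l : Fin (n + 1) → ℂ) * X 0 ^ (if lf (e l : Fin (n + 1) → ℂ) ∈ I then 0 else m) + b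
        ∈ I := by
    intro l
    by_cases h : lf (e l : Fin (n + 1) → ℂ) ∈ I
    · exact ⟨0, fun _ => rfl, isHomogeneous_zero _ _ _, by simp, by simp [h]⟩
    · obtain ⟨b, hb1, hb2, hb3⟩ := (hBT (e l).2).2.resolve_left h
      exact ⟨b, fun h' => absurd h' h, by rwa [if_neg h], hb2, by rwa [if_neg h]⟩
  choose b hb0 hbh hbt hbG using hb
  refine ⟨{ smooth := hS, hm := hm, ho := ho, s := fun l => (e l : Fin (n + 1) → ℂ),
            e := fun l => if lf (e l : Fin (n + 1) → ℂ) ∈ I then 0 else m, b := b, he := ?_,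
            hb0 := ?_, hbh := hbh, hbt := hbt, hso := ?_, hli := ?_, hG := hbG, hlin := ?_ }⟩
  · intro l
    by_cases h : lf (e l : Fin (n + 1) → ℂ) ∈ I
    · left; exact if_pos h
    · right; exact if_neg h
  · intro l h
    apply hb0
    by_contra h1
    rw [if_neg h1] at h
    omega
  · intro l
    have h1 := dot_self hS ho (hBT (e l).2).1
    rwa [dotProduct_single, mul_one] at h1
  · exact hliB.comp e e.injective
  · intro v hv
    refine Submodule.span_mono ?_ (hsp₀ hv)
    intro w hw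
    refine ⟨e.symm ⟨w, hBB hw⟩, ?_, ?_⟩
    · have h1 : lf w ∈ I := hB₀ hw
      simp only [Set.mem_ofPred_eq, Equiv.apply_symm_apply]
      exact if_pos h1
    · simp

/-- The theorem on the centre of a homology. -/
theorem main {I : Ideal (MvPolynomial (Fin (n + 1)) ℂ)} {r m : ℕ} (hS : Smooth I r)
    (hm : 1 ≤ m) {ζ : ℂ} (hζ : IsPrimitiveRoot ζ m)
    (hst : ∀ x ∈ cone I, Function.update x 0 (ζ * x 0) ∈ cone I)
    (ho : (Pi.single 0 1 : Fin (n + 1) → ℂ) ∈ cone I)
    (hspan : r ≤ Module.finrank ℂ (Submodule.span ℂ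
      {v | ∃ f ∈ I, (∃ d ≤ 2 * m, f.IsHomogeneous d) ∧ dif f (Pi.single 0 1) = v}))
    (hn : 4 * r ≤ n + 1) :
    ∃ F : Fin r → MvPolynomial (Fin (n + 1)) ℂ,
      (∀ i, (F i).IsHomogeneous 1 ∨ (F i).IsHomogeneous (m + 1)) ∧
      (∀ x, x ∈ cone I ↔ ∀ i, eval x (F i) = 0) ∧
      ∀ x ∈ cone I, x ≠ 0 → LinearIndependent ℂ (fun i => dif (F i) x) := by
  obtain ⟨S⟩ := exists_gal hS hm hζ hst ho hspan
  have hind : ∀ x ∈ cone I, x ≠ 0 → LinearIndependent ℂ (fun i => dif (S.G i) x) := by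
    rcases Nat.eq_zero_or_pos r with hr | hr
    · subst hr
      intro x _ _
      exact linearIndependent_empty_type
    · refine H18.Sparse.indep_everywhere hS S.G S.G_mem (fun i => ⟨_, S.G_homog i⟩) S.s
        (by rw [Fintype.card_fin, Fintype.card_fin]; omega) ?_
      intro x hx hx0 hxs
      exact S.indep_tangent (by rw [Fintype.card_fin]; omega) hx0 hxs
        (S.eval_b hxs fun l => hx _ (S.G_mem l))
  refine ⟨S.G, fun i => ?_, fun x => ⟨fun hx i => hx _ (S.G_mem i), fun hx => ?_⟩, hind⟩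
  · have := S.G_homog i
    rcases S.he i with h | h
    · left; rwa [h] at this
    · right; rwa [h] at this
  · refine H18.Sparse.zeros_mem hS S.G S.G_mem (fun i => ⟨_, S.G_homog i⟩) hind
      (by rw [Fintype.card_fin]; omega) ho Gal.pt_ne hx

end Pool.Agent.H25.Hart
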