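import Pool.Agent.H25.Hart.Ext

/-! A Zak type lemma for arbitrary closed sets: a hyperplane not containing a smooth variety of
codimension `r` is tangent to it along a set of dimension at most `r - 1`. -/

open MvPolynomial

set_option linter.unusedSectionVars false

namespace Pool.Agent.H25.Hart

open H89.Hart

variable {ι κ : Type*} [Fintype ι] [DecidableEq ι] [Fintype κ] [DecidableEq κ]

theorem wb_succ_le {a : WithBot ℕ∞} {r : ℕ} (h : (r : WithBot ℕ∞) < a) :
    ((r + 1 : ℕ) : WithBot ℕ∞) ≤ a := by
  rcases a with _ | e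
  · exact absurd h not_lt_bot
  · rcases e with _ | m
    · exact le_top
    · change _ < ((m : ℕ) : WithBot ℕ∞) at h
      change _ ≤ ((m : ℕ) : WithBot ℕ∞)
      have h3 : r < m := by exact_mod_cast h
      exact_mod_cast h3

/-- the pull back of polynomials by the linear map `L` -/
noncomputable def pull (L : (κ → ℂ) →ₗ[ℂ] (ι → ℂ)) : MvPolynomial ι ℂ →ₐ[ℂ] MvPolynomial κ ℂ :=
  aeval fun i => ∑ k, C (L (Pi.single k 1) i) * X k

theorem eval_pull (L : (κ → ℂ) →ₗ[ℂ] (ι → ℂ)) (u : κ → ℂ) (f : MvPolynomial ι ℂ) :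
    eval u (pull L f) = eval (L u) f := by
  have h : ((aeval u : MvPolynomial κ ℂ →ₐ[ℂ] ℂ).comp (pull L)) = aeval (L u) := by
    apply MvPolynomial.algHom_ext
    intro i
    simp only [pull, AlgHom.comp_apply, aeval_X, aeval_eq_eval, map_sum, map_mul, eval_C]
    have h1 : L u = ∑ k, u k • L (Pi.single k 1) := by
      conv_lhs => rw [show u = ∑ k, u k • (Pi.single k (1 : ℂ) : κ → ℂ) from by
        funext m; simp [Finset.sum_apply, Pi.single_apply]]
      rw [map_sum]
      simp only [map_smul]
    rw [h1, Finset.sum_apply]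
    refine Finset.sum_congr rfl fun k _ => ?_
    rw [Pi.smul_apply, smul_eq_mul, mul_comm]
  have h2 := congrArg (fun φ => φ f) h
  simpa [aeval_eq_eval] using h2

theorem pull_homog (L : (κ → ℂ) →ₗ[ℂ] (ι → ℂ)) {f : MvPolynomial ι ℂ} {d : ℕ}
    (hf : f.IsHomogeneous d) : (pull L f).IsHomogeneous d := by
  have h := hf.aeval (g := fun i => ∑ k, C (L (Pi.single k 1) i) * (X k : MvPolynomial κ ℂ))
    (n := 1) (fun i => by
      apply IsHomogeneous.sum
      intro k _
      have := (isHomogeneous_C κ (L (Pi.single k 1) i)).mul (isHomogeneous_X ℂ k)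
      simpa using this)
  simpa [pull] using h

/-- `(u, ε) ↦ L u + ε y` -/
noncomputable def addL (L : (κ → ℂ) →ₗ[ℂ] (ι → ℂ)) (y : ι → ℂ) :
    (Option κ → ℂ) →ₗ[ℂ] (ι → ℂ) where
  toFun v := L (fun k => v (some k)) + v none • y
  map_add' v w := by
    have : (fun k => (v + w) (some k)) = (fun k => v (some k)) + fun k => w (some k) := rfl
    rw [this, map_add, Pi.add_apply, add_smul]
    abel
  map_smul' c v := by
    have : (fun k => (c • v) (some k)) = c • fun k => v (some k) := rfl
    rw [this, map_smul, Pi.smul_apply, smul_eq_mul, mul_smul, smul_add, RingHom.id_apply]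

theorem addL_apply (L : (κ → ℂ) →ₗ[ℂ] (ι → ℂ)) (y : ι → ℂ) (v : Option κ → ℂ) :
    addL L y v = L (fun k => v (some k)) + v none • y := rfl

/-- **Zak type lemma.** `P` is an irreducible closed cone, mapped by the linear map `L`
(injectively enough) into the cone of the smooth variety `I` of codimension `r`, such that the
hyperplane `s` is tangent to the variety along the image, but does not contain it. Then
`dim P ≤ r`. -/
theorem zakStar {I : Ideal (MvPolynomial ι ℂ)} {r : ℕ} (hI : Smooth I r)
    {P : Ideal (MvPolynomial κ ℂ)} (hP : P.IsPrime)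
    (hPh : ∀ f ∈ P, ∀ d, homogeneousComponent d f ∈ P) (L : (κ → ℂ) →ₗ[ℂ] (ι → ℂ)) {s : ι → ℂ}
    (hL : ∀ u ∈ cone P, u ≠ 0 → L u ≠ 0 ∧ L u ∈ cone I ∧ s ∈ N I (L u)) {y : ι → ℂ}
    (hy : y ∈ cone I) (hs : s ⬝ᵥ y ≠ 0) :
    ringKrullDim (MvPolynomial κ ℂ ⧸ P) ≤ r := by
  by_contra hcon
  push Not at hcon
  have hy0 : y ≠ 0 := by
    rintro rfl
    simp at hs
  obtain ⟨h, l, hhI, hhom, hli, -⟩ := exists_frame hI hy hy0
  have h0P : (0 : κ → ℂ) ∈ cone P := by
    obtain ⟨u, hu, -, -⟩ := exists_ne_zero P hP hPh (fun x : Fin 0 => (x.elim0 : MvPolynomial κ ℂ))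
      (fun x => x.elim0) (by
        rw [Fintype.card_fin]
        refine lt_of_le_of_lt ?_ hcon
        exact_mod_cast Nat.zero_le r)
    have := smul_mem_of_homogeneous hPh hu 0
    rwa [zero_smul] at this
  set q : Option κ → ℂ := fun o => if o = none then 1 else 0 with hq
  have hqs : (fun k => q (some k)) = 0 := by
    funext k
    simp [hq]
  have hqn : q none = 1 := by simp [hq]
  have hLq : addL L y q = y := by
    rw [addL_apply, hqs, map_zero, hqn, one_smul, zero_add]
  obtain ⟨Z, hZ, hZh, hPZ, hgZ, hqZ, hdim⟩ := exists_component_over (cyl P) (cyl_prime hP)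
    (cyl_homogeneous hP hPh) (fun j : Fin r => pull (addL L y) (h j))
    (fun j => by
      obtain ⟨d, hd⟩ := hhom j
      exact ⟨d, pull_homog _ hd⟩) q
    (by rw [mem_cone_cyl, hqs]; exact h0P)
    (fun j => by rw [eval_pull, hLq]; exact hy _ (hhI j))
  -- the ideal of the variety pulls back into `Z`
  have hIZ : ∀ f ∈ I, pull (addL L y) f ∈ Z := by
    intro f hf
    obtain ⟨w, hw, hwf⟩ := L0 hI h hhI hy hy0 hli hf
    have h1 : (Ideal.span (Set.range h)) ≤ Z.comap (pull (addL L y)).toRingHom := by
      rw [Ideal.span_le]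
      rintro _ ⟨j, rfl⟩
      exact hgZ j
    have h2 : pull (addL L y) (w * f) ∈ Z := h1 hwf
    rw [map_mul] at h2
    refine (hZ.mem_or_mem h2).resolve_left fun h3 => hw ?_
    have := hqZ _ h3
    rwa [eval_pull, hLq] at this
  -- a point of `Z` at infinity
  have hdim2 : (Fintype.card Unit : WithBot ℕ∞) < ringKrullDim (MvPolynomial (Option κ) ℂ ⧸ Z) := by
    by_contra hcon2
    push Not at hcon2
    rw [dim_cyl] at hdim
    have h1 : ringKrullDim (MvPolynomial κ ℂ ⧸ P) + 1 ≤ 1 + (r : WithBot ℕ∞) := by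
      refine hdim.trans ?_
      rw [Fintype.card_fin]
      exact add_le_add_left hcon2 _
    have h2 : ((r + 1 : ℕ) : WithBot ℕ∞) + 1 ≤ 1 + (r : WithBot ℕ∞) :=
      (add_le_add_left (wb_succ_le hcon) 1).trans h1
    have h3 : r + 1 + 1 ≤ 1 + r := by exact_mod_cast h2
    omega
  obtain ⟨v, hvZ, hv0, hvn⟩ := exists_ne_zero Z hZ hZh (fun _ : Unit => X none)
    (by intro _; simp) hdim2
  have hvn' : v none = 0 := by simpa using hvn ()
  have hu : (fun k => v (some k)) ∈ cone P := mem_cone_cyl.1 (cone_anti hPZ hvZ)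
  have hu0 : (fun k => v (some k)) ≠ 0 := by
    intro h0
    apply hv0
    funext o
    rcases o with _ | k
    · exact hvn'
    · exact congrFun h0 k
  obtain ⟨hLu0, hLu, hsN⟩ := hL _ hu hu0
  obtain ⟨f, hf, hfs⟩ := mem_N.1 hsN
  have h0I : (0 : ι → ℂ) ∈ cone I := by
    have := smul_mem_cone hI hy 0
    rwa [zero_smul] at this
  -- divide by `ε`
  obtain ⟨H, hH⟩ : ∃ H, pull (addL L y) f - pull (addL L 0) f = X none * H := by
    have : pull (addL L y) f - pull (addL L 0) f ∈
        Ideal.span {(X none : MvPolynomial (Option κ) ℂ)} := by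
      rw [← Ideal.Quotient.eq]
      have h1 : (Ideal.Quotient.mkₐ ℂ (Ideal.span {(X none : MvPolynomial (Option κ) ℂ)})).comp
          (pull (addL L y)) = (Ideal.Quotient.mkₐ ℂ _).comp (pull (addL L 0)) := by
        apply MvPolynomial.algHom_ext
        intro i
        refine Ideal.Quotient.eq.2 ?_
        change pull (addL L y) (X i) - pull (addL L 0) (X i) ∈ _
        simp only [pull, aeval_X]
        rw [← Finset.sum_sub_distrib]
        refine Ideal.sum_mem _ fun o _ => ?_
        rcases o with _ | k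
        · exact Ideal.sub_mem _ (Ideal.mul_mem_left _ _ (Ideal.mem_span_singleton_self _))
            (Ideal.mul_mem_left _ _ (Ideal.mem_span_singleton_self _))
        · have h2 : addL L y (Pi.single (some k) 1) = addL L 0 (Pi.single (some k) 1) := by
            rw [addL_apply, addL_apply]
            simp
          rw [h2, sub_self]
          exact zero_mem _
      exact congrArg (fun φ => φ f) h1
    obtain ⟨H, hH⟩ := Ideal.mem_span_singleton.1 this
    exact ⟨H, hH⟩
  have hP0 : pull (addL L 0) f ∈ Z := by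
    apply hPZ
    apply mem_of_cone (cyl_prime hP)
    intro z hz
    rw [mem_cone_cyl] at hz
    rw [eval_pull, addL_apply, smul_zero, add_zero]
    by_cases hz0 : (fun k => z (some k)) = 0
    · rw [hz0, map_zero]
      exact h0I f hf
    · exact (hL _ hz hz0).2.1 f hf
  have hHZ : H ∈ Z := by
    have h1 : X none * H ∈ Z := by
      rw [← hH]
      exact Z.sub_mem (hIZ f hf) hP0
    refine (hZ.mem_or_mem h1).resolve_left fun h2 => ?_
    have := hqZ _ h2
    rw [eval_X, hqn] at this
    exact one_ne_zero this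
  have hHv : eval v H = 0 := hvZ _ hHZ
  -- derivative
  have h1 : ln (L fun k => v (some k)) y f =
      Polynomial.C (eval (L fun k => v (some k)) f) +
        Polynomial.X * ln v (Pi.single none 1) H := by
    apply Polynomial.funext
    intro t
    rw [Polynomial.eval_add, Polynomial.eval_mul, Polynomial.eval_C, Polynomial.eval_X, eval_ln,
      eval_ln]
    have h2 := congrArg (eval (v + t • Pi.single none 1)) hH
    have hn : (v + t • (Pi.single none 1 : Option κ → ℂ)) none = t := by
      simp [hvn']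
    have hsm : (fun k => (v + t • (Pi.single none 1 : Option κ → ℂ)) (some k)) =
        fun k => v (some k) := by
      funext k
      simp
    rw [map_sub, map_mul, eval_pull, eval_pull, eval_X, addL_apply, addL_apply, hsm, hn,
      smul_zero, add_zero] at h2
    linear_combination h2
  have h2 := congrArg (fun p => Polynomial.coeff p 1) h1
  simp only [coeff_one_ln, Polynomial.coeff_add, Polynomial.coeff_X_mul, coeff_zero_ln] at h2
  rw [hHv, Polynomial.coeff_C_of_ne_zero one_ne_zero, zero_add, hfs] at h2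
  exact hs h2

end Pool.Agent.H25.Hart
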